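import Mathlib.Algebra.MvPolynomial.Eval
import Mathlib.Topology.Algebra.Module.ModuleTopology
import Mathlib.Analysis.InnerProductSpace.Basic
import Mathlib.Analysis.Calculus.Deriv.Basic
import Mathlib.Analysis.Calculus.ContDiff.FTaylorSeries

set_option autoImplicit false

namespace Pool.Agent.MP_b41015_an

/-- The set of points reachable from the origin in time less than `t` with at most `N`
switchings: times `0 = τ 0 < τ 1 < ... < τ (N+1) < t`, indices `ι j` and integral curves `ξ j`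
of `f (ι j)` on `[τ j, τ (j+1)]`, glued end to end, starting at `0` and ending at `x`. -/
def Reach {n k : ℕ} (f : Fin k → (Fin n → ℝ) → (Fin n → ℝ)) (t : ℝ) (N : ℕ) :
    Set (Fin n → ℝ) :=
  {x | ∃ (τ : ℕ → ℝ) (ι : ℕ → Fin k) (ξ : ℕ → ℝ → (Fin n → ℝ)),
    τ 0 = 0 ∧ (∀ j ≤ N, τ j < τ (j + 1)) ∧ τ (N + 1) < t ∧
    (∀ j ≤ N, ∀ s ∈ Set.Icc (τ j) (τ (j + 1)),
      HasDerivWithinAt (ξ j) (f (ι j) (ξ j s)) (Set.Icc (τ j) (τ (j + 1))) s) ∧
    ξ 0 0 = 0 ∧ (∀ j < N, ξ j (τ (j + 1)) = ξ (j + 1) (τ (j + 1))) ∧ ξ N (τ (N + 1)) = x}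

/-- Small-time local controllability at the origin. -/
def STLC {n k : ℕ} (f : Fin k → (Fin n → ℝ) → (Fin n → ℝ)) : Prop :=
  ∀ t : ℝ, 0 < t → (0 : Fin n → ℝ) ∈ interior (⋃ N : ℕ, Reach f t N)

/-- The Taylor polynomials of degree `m` at the origin of `f i` and `g i` coincide for each `i`. -/
def AgreeToOrder {n k : ℕ} (m : ℕ) (f g : Fin k → (Fin n → ℝ) → (Fin n → ℝ)) : Prop :=
  ∀ i : Fin k, ∀ j ≤ m, iteratedFDeriv ℝ j (f i) 0 = iteratedFDeriv ℝ j (g i) 0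

/-- Every component of the vector field is a real polynomial in the coordinates. -/
def IsPolynomialField {n : ℕ} (v : (Fin n → ℝ) → (Fin n → ℝ)) : Prop :=
  ∀ c : Fin n, ∃ q : MvPolynomial (Fin n) ℝ, ∀ x, v x c = MvPolynomial.eval x q

end Pool.Agent.MP_b41015_an
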