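import Mathlib.Topology.Sheaves.Presheaf
import Mathlib.Tactic.Monotonicity.Lemmas
import Mathlib.Algebra.Order.Ring.Star
import Mathlib.Algebra.Order.Star.Real
import Mathlib.Analysis.Calculus.Deriv.Prod
import Mathlib.Analysis.Analytic.Polynomial
import Mathlib.Analysis.SpecialFunctions.Arsinh
import Mathlib.Tactic.Polynomial.Basic
import Pool.Agent.MP_b41015_an.Defs

-- ======== part 0: formerly Pool.Agent.MP_b41015_an.Basic
section MrgPart0

set_option autoImplicit false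

namespace Pool.Agent.MP_b41015_an

open Set

variable {n k : ℕ}

/-- Induction over the arcs of a trajectory. -/
theorem inv_of_reach (f : Fin k → (Fin n → ℝ) → (Fin n → ℝ)) (P : ℝ → (Fin n → ℝ) → Prop)
    (T : ℝ) (h0 : P 0 0)
    (hstep : ∀ (i : Fin k) (s s' : ℝ) (ξ : ℝ → (Fin n → ℝ)), 0 ≤ s → s < s' → s' < T →
      (∀ u ∈ Icc s s', HasDerivWithinAt ξ (f i (ξ u)) (Icc s s') u) → P s (ξ s) → P s' (ξ s'))
    {N : ℕ} {x : Fin n → ℝ} (hx : x ∈ Reach f T N) : ∃ s, 0 ≤ s ∧ s < T ∧ P s x := by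
  obtain ⟨τ, ι, ξ, h1, h2, h3, h4, h5, h6, h7⟩ := hx
  have hup : ∀ d j, j + d = N + 1 → τ j ≤ τ (N + 1) := by
    intro d
    induction d with
    | zero => intro j hj; simp at hj; rw [hj]
    | succ d ih =>
      intro j hj
      exact (h2 j (by omega)).le.trans (ih (j + 1) (by omega))
  have key : ∀ j ≤ N, 0 ≤ τ j ∧ P (τ j) (ξ j (τ j)) := by
    intro j
    induction j with
    | zero => intro _; rw [h1, h5]; exact ⟨le_rfl, h0⟩
    | succ j ih =>
      intro hj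
      obtain ⟨a, b⟩ := ih (by omega)
      have hlt := h2 j (by omega)
      refine ⟨a.trans hlt.le, ?_⟩
      rw [← h6 j (by omega)]
      exact hstep (ι j) _ _ (ξ j) a hlt
        ((hup (N - j) (j + 1) (by omega)).trans_lt h3) (h4 j (by omega)) b
  obtain ⟨a, b⟩ := key N le_rfl
  have hlt := h2 N le_rfl
  refine ⟨τ (N + 1), a.trans hlt.le, h3, ?_⟩
  rw [← h7]
  exact hstep (ι N) _ _ (ξ N) a hlt h3 (h4 N le_rfl) b

/-- Reachable with final time at most `s`. -/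
def Rch (f : Fin k → (Fin n → ℝ) → (Fin n → ℝ)) (s : ℝ) (x : Fin n → ℝ) : Prop :=
  ∃ (N : ℕ) (τ : ℕ → ℝ) (ι : ℕ → Fin k) (ξ : ℕ → ℝ → (Fin n → ℝ)),
    τ 0 = 0 ∧ (∀ j ≤ N, τ j < τ (j + 1)) ∧ τ (N + 1) ≤ s ∧
    (∀ j ≤ N, ∀ s ∈ Set.Icc (τ j) (τ (j + 1)),
      HasDerivWithinAt (ξ j) (f (ι j) (ξ j s)) (Set.Icc (τ j) (τ (j + 1))) s) ∧
    ξ 0 0 = 0 ∧ (∀ j < N, ξ j (τ (j + 1)) = ξ (j + 1) (τ (j + 1))) ∧ ξ N (τ (N + 1)) = x

theorem Rch.mem {f : Fin k → (Fin n → ℝ) → (Fin n → ℝ)} {s t : ℝ} {x : Fin n → ℝ}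
    (h : Rch f s x) (hst : s < t) : x ∈ ⋃ N : ℕ, Reach f t N := by
  obtain ⟨N, τ, ι, ξ, h1, h2, h3, h4, h5, h6, h7⟩ := h
  exact mem_iUnion.2 ⟨N, τ, ι, ξ, h1, h2, h3.trans_lt hst, h4, h5, h6, h7⟩

theorem Rch.mono {f : Fin k → (Fin n → ℝ) → (Fin n → ℝ)} {s t : ℝ} {x : Fin n → ℝ}
    (h : Rch f s x) (hst : s ≤ t) : Rch f t x := by
  obtain ⟨N, τ, ι, ξ, h1, h2, h3, h4, h5, h6, h7⟩ := h
  exact ⟨N, τ, ι, ξ, h1, h2, h3.trans hst, h4, h5, h6, h7⟩

theorem Rch.base {f : Fin k → (Fin n → ℝ) → (Fin n → ℝ)} (i : Fin k) (hi : f i 0 = 0)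
    {s : ℝ} (hs : 0 < s) : Rch f s 0 := by
  refine ⟨0, fun j => if j = 0 then 0 else s, fun _ => i, fun _ _ => 0, by simp, ?_, by simp,
    ?_, rfl, by simp, rfl⟩
  · intro j hj
    obtain rfl : j = 0 := by omega
    simpa using hs
  · intro j _ u _
    rw [hi]
    exact hasDerivWithinAt_const _ _ _

theorem Rch.step {f : Fin k → (Fin n → ℝ) → (Fin n → ℝ)} {s : ℝ} {x : Fin n → ℝ}
    (h : Rch f s x) (i : Fin k) (φ : ℝ → (Fin n → ℝ)) (hφ : ∀ u, HasDerivAt φ (f i (φ u)) u)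
    (h0 : φ 0 = x) {d : ℝ} (hd : 0 ≤ d) : Rch f (s + d) (φ d) := by
  rcases hd.eq_or_lt with rfl | hd
  · rw [h0, add_zero]; exact h
  obtain ⟨N, τ, ι, ξ, h1, h2, h3, h4, h5, h6, h7⟩ := h
  refine ⟨N + 1, Function.update τ (N + 2) (τ (N + 1) + d), Function.update ι (N + 1) i,
    Function.update ξ (N + 1) (fun u => φ (u - τ (N + 1))), ?_, ?_, ?_, ?_, ?_, ?_, ?_⟩
  · rw [Function.update_of_ne (by omega)]; exact h1
  · intro j hj
    rcases Nat.lt_or_ge j (N + 1) with hj' | hj'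
    · rw [Function.update_of_ne (by omega), Function.update_of_ne (by omega)]
      exact h2 j (by omega)
    · obtain rfl : j = N + 1 := by omega
      rw [Function.update_of_ne (by omega), Function.update_self]
      linarith
  · rw [Function.update_self]; linarith
  · intro j hj
    rcases Nat.lt_or_ge j (N + 1) with hj' | hj'
    · rw [Function.update_of_ne (by omega), Function.update_of_ne (by omega),
        Function.update_of_ne (by omega), Function.update_of_ne (by omega)]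
      exact h4 j (by omega)
    · obtain rfl : j = N + 1 := by omega
      intro u _
      rw [Function.update_self, Function.update_self]
      have := (hφ (u - τ (N + 1))).scomp u ((hasDerivAt_id u).sub_const (τ (N + 1)))
      rw [one_smul] at this
      exact this.hasDerivWithinAt
  · rw [Function.update_of_ne (by omega)]; exact h5
  · intro j hj
    rcases Nat.lt_or_ge j N with hj' | hj'
    · rw [Function.update_of_ne (by omega), Function.update_of_ne (by omega),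
        Function.update_of_ne (by omega)]
      exact h6 j hj'
    · obtain rfl : j = N := by omega
      rw [Function.update_of_ne (by omega), Function.update_of_ne (by omega),
        Function.update_self, h7]
      simp [h0]
  · rw [Function.update_self, Function.update_self]
    simp

/-- A coordinate of an integral curve agrees with an explicit primitive. -/
theorem coord_eq {ξ : ℝ → (Fin n → ℝ)} {F : ℝ → (Fin n → ℝ)} {s s' : ℝ}
    (hξ : ∀ u ∈ Icc s s', HasDerivWithinAt ξ (F u) (Icc s s') u) (c : Fin n)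
    (ψ ψ' : ℝ → ℝ) (hψ : ∀ u, HasDerivAt ψ (ψ' u) u) (hF : ∀ u ∈ Icc s s', F u c = ψ' u)
    (h0 : ξ s c = ψ s) : ∀ u ∈ Icc s s', ξ u c = ψ u := by
  have hc : ∀ u ∈ Icc s s', HasDerivWithinAt (fun u => ξ u c) (ψ' u) (Icc s s') u := by
    intro u hu
    have := (hasDerivWithinAt_pi.1 (hξ u hu)) c
    rwa [hF u hu] at this
  refine eq_of_has_deriv_right_eq (f' := ψ') ?_ ?_ ?_ ?_ h0
  · intro u hu
    exact (hc u (Ico_subset_Icc_self hu)).mono_of_mem_nhdsWithin (Icc_mem_nhdsGE_of_mem hu)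
  · intro u _
    exact (hψ u).hasDerivWithinAt
  · intro u hu
    exact (hc u hu).continuousWithinAt
  · intro u _
    exact (hψ u).continuousAt.continuousWithinAt

theorem coord_lin {ξ : ℝ → (Fin n → ℝ)} {F : ℝ → (Fin n → ℝ)} {s s' : ℝ}
    (hξ : ∀ u ∈ Icc s s', HasDerivWithinAt ξ (F u) (Icc s s') u) (c : Fin n) (a : ℝ)
    (hF : ∀ u ∈ Icc s s', F u c = a) : ∀ u ∈ Icc s s', ξ u c = ξ s c + a * (u - s) := by
  refine coord_eq hξ c (fun u => ξ s c + a * (u - s)) (fun _ => a) ?_ hF (by simp)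
  intro u
  have := (((hasDerivAt_id u).sub_const s).const_mul a).const_add (ξ s c)
  simpa using this

end Pool.Agent.MP_b41015_an

end MrgPart0

-- ======== part 1: formerly Pool.Agent.MP_b41015_an.Hardy
section MrgPart1

set_option autoImplicit false

namespace Pool.Agent.MP_b41015_an

/-- Logarithmic potential. -/
noncomputable def Lam (δ m : ℝ) : ℝ := Real.arsinh (m / δ)

theorem Lam_mono {δ a b : ℝ} (hδ : 0 < δ) (h : a ≤ b) : Lam δ a ≤ Lam δ b :=
  Real.arsinh_le_arsinh.2 (div_le_div_of_nonneg_right h hδ.le)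

theorem Lam_add_nonneg {δ a : ℝ} (hδ : 0 < δ) (h : -1 ≤ a) : 0 ≤ Lam δ a + Lam δ 1 := by
  have h1 := Lam_mono hδ h
  have h2 : Lam δ (-1) = - Lam δ 1 := by
    unfold Lam
    rw [neg_div, Real.arsinh_neg]
  linarith

theorem Lam_bound {q : ℝ} (hq : 0 < q) (hq1 : q ≤ 1) {N : ℕ} (hN : 1 ≤ N) :
    Lam (q ^ N) 1 ≤ 3 * N / q := by
  unfold Lam Real.arsinh
  set w : ℝ := 1 / q ^ N with hw
  have hqN : 0 < q ^ N := pow_pos hq N
  have hw1 : 1 ≤ w := by
    rw [hw, le_div_iff₀ hqN, one_mul]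
    exact pow_le_one₀ hq.le hq1
  have hs : √(1 + w ^ 2) ≤ 1 + w := by
    apply Real.sqrt_le_iff.2
    constructor <;> nlinarith
  have h3 : (3 : ℝ) ≤ 3 ^ N := by
    calc (3 : ℝ) = 3 ^ 1 := by norm_num
      _ ≤ 3 ^ N := pow_le_pow_right₀ (by norm_num) hN
  have h4 : w + √(1 + w ^ 2) ≤ (3 / q) ^ N := by
    have : (3 / q) ^ N = 3 ^ N * w := by rw [hw, div_pow]; ring
    rw [this]
    nlinarith
  have h5 : 0 < w + √(1 + w ^ 2) := by positivity
  have h6 := Real.log_le_log h5 h4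
  rw [Real.log_pow] at h6
  have h7 : Real.log (3 / q) ≤ 3 / q - 1 := Real.log_le_sub_one_of_pos (by positivity)
  have h8 : (0 : ℝ) ≤ N := Nat.cast_nonneg N
  calc _ ≤ _ := h6
    _ ≤ N * (3 / q) := by nlinarith
    _ = 3 * N / q := by ring

/-- The integrated Young inequality behind the critical Hardy estimate. -/
theorem young {G δ μ a b : ℝ} (hG : 0 ≤ G) (hδ : 0 < δ) (hμ : 0 < μ) (hab : a ≤ b) :
    G * (b - a) ≤ G ^ 3 * ((b ^ 3 - a ^ 3) / 3 + δ ^ 2 * (b - a)) / μ ^ 2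
      + μ * (Lam δ b - Lam δ a) := by
  have hd : ∀ u : ℝ, HasDerivAt
      (fun u : ℝ => G ^ 3 * (u ^ 3 / 3 + δ ^ 2 * u) / μ ^ 2 + μ * Lam δ u - G * u)
      (G ^ 3 * (u ^ 2 + δ ^ 2) / μ ^ 2 + μ * ((√(1 + (u / δ) ^ 2))⁻¹ * (1 / δ)) - G) u := by
    intro u
    have h1 : HasDerivAt (fun u : ℝ => u ^ 3 / 3 + δ ^ 2 * u) (u ^ 2 + δ ^ 2) u := by
      have := ((hasDerivAt_pow 3 u).div_const 3).add ((hasDerivAt_id u).const_mul (δ ^ 2))
      exact this.congr_deriv (by simp)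
    have h2 : HasDerivAt (fun u : ℝ => Lam δ u) ((√(1 + (u / δ) ^ 2))⁻¹ * (1 / δ)) u :=
      (Real.hasDerivAt_arsinh (u / δ)).comp u ((hasDerivAt_id u).div_const δ)
    have h3 := (((h1.const_mul (G ^ 3)).div_const (μ ^ 2)).add (h2.const_mul μ)).sub
      ((hasDerivAt_id u).const_mul G)
    exact h3.congr_deriv (by simp)
  have hm : Monotone
      (fun u : ℝ => G ^ 3 * (u ^ 3 / 3 + δ ^ 2 * u) / μ ^ 2 + μ * Lam δ u - G * u) := by
    refine monotone_of_deriv_nonneg (fun u => (hd u).differentiableAt) fun u => ?_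
    rw [(hd u).deriv]
    set ρ := √(1 + (u / δ) ^ 2) with hρ
    have hρ0 : 0 < ρ := Real.sqrt_pos.2 (by positivity)
    have hρ2 : ρ ^ 2 = 1 + (u / δ) ^ 2 := Real.sq_sqrt (by positivity)
    have hr : u ^ 2 + δ ^ 2 = (δ * ρ) ^ 2 := by
      rw [mul_pow, hρ2]; field_simp; ring
    have hr2 : ρ⁻¹ * (1 / δ) = 1 / (δ * ρ) := by field_simp
    rw [hr, hr2]
    set r := δ * ρ with hr'
    have hr0 : 0 < r := by positivity
    rcases le_total (G * r) μ with h | h
    · have h1 : G ≤ μ * (1 / r) := by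
        rw [mul_one_div, le_div_iff₀ hr0]; exact h
      have h2 : 0 ≤ G ^ 3 * r ^ 2 / μ ^ 2 := by positivity
      linarith
    · have h1 : G ≤ G ^ 3 * r ^ 2 / μ ^ 2 := by
        rw [le_div_iff₀ (by positivity)]
        have : μ ^ 2 ≤ (G * r) ^ 2 := pow_le_pow_left₀ hμ.le h 2
        nlinarith
      have h2 : 0 ≤ μ * (1 / r) := by positivity
      linarith
  have := hm hab
  simp only at this
  have e : G ^ 3 * ((b ^ 3 - a ^ 3) / 3 + δ ^ 2 * (b - a)) / μ ^ 2 =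
      G ^ 3 * (b ^ 3 / 3 + δ ^ 2 * b) / μ ^ 2 - G ^ 3 * (a ^ 3 / 3 + δ ^ 2 * a) / μ ^ 2 := by ring
  rw [e]
  linarith

/-- The invariant of the perturbed system at time `s`. -/
def Inv (s x g y z : ℝ) : Prop :=
  |x| ≤ s ∧ |g| ≤ s ∧ |y| ≤ s ∧ ∃ C, 0 ≤ C ∧ C * (1 - 12 * s) ≤ z ∧
    ∀ Y δ μ : ℝ, 0 < Y → 0 < δ → 0 < μ → μ ≤ 1 → ∃ m, x ≤ m ∧ m ≤ s ∧
      |y| + (m - x) ≤ Y / 2 + (C + δ ^ 2 * s) / μ ^ 2 + 4 * C / Y ^ 2 + μ * (Lam δ m + Lam δ 1)

theorem inv_zero : Inv 0 0 0 0 0 := by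
  refine ⟨by simp, by simp, by simp, 0, le_rfl, by simp, fun Y δ μ hY hδ hμ _ =>
    ⟨0, le_rfl, le_rfl, ?_⟩⟩
  have := Lam_add_nonneg hδ (show (-1 : ℝ) ≤ 0 by norm_num)
  simp only [abs_zero, sub_self, add_zero, mul_zero, zero_div]
  positivity

theorem inv_nonneg {s x g y z : ℝ} (h : Inv s x g y z) (hs : s ≤ 1 / 12) : 0 ≤ z := by
  obtain ⟨-, -, -, C, hC, hz, -⟩ := h
  have : 0 ≤ C * (1 - 12 * s) := mul_nonneg hC (by linarith)
  linarith

theorem div_split (C D δ s τ μ : ℝ) :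
    (C + D + δ ^ 2 * (s + τ)) / μ ^ 2 = (C + δ ^ 2 * s) / μ ^ 2 + (D + δ ^ 2 * τ) / μ ^ 2 := by
  ring

theorem inv_generic {s τ x g y z x' g' y' D : ℝ} (h : Inv s x g y z) (hτ : 0 ≤ τ)
    (hx : |x' - x| ≤ τ) (hg : |g' - g| ≤ τ) (hy : |y' - y| ≤ τ)
    (hD : |x' - x| + |y' - y| ≤ D) : Inv (s + τ) x' g' y' (z + D) := by
  obtain ⟨h1, h2, h3, C, hC, hz, hm⟩ := h
  have hs : 0 ≤ s := (abs_nonneg _).trans h1
  have hD0 : 0 ≤ D := le_trans (by positivity) hD
  have a1 : |x'| ≤ |x| + |x' - x| := by simpa using abs_add_le x (x' - x)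
  have a2 : |g'| ≤ |g| + |g' - g| := by simpa using abs_add_le g (g' - g)
  have a3 : |y'| ≤ |y| + |y' - y| := by simpa using abs_add_le y (y' - y)
  refine ⟨by linarith, by linarith, by linarith, C + D, by positivity, by nlinarith, ?_⟩
  intro Y δ μ hY hδ hμ hμ1
  obtain ⟨m, m1, m2, m3⟩ := hm Y δ μ hY hδ hμ hμ1
  have b1 : x' ≤ s + τ := by linarith [le_abs_self x']
  refine ⟨max m x', le_max_right _ _, max_le (by linarith) b1, ?_⟩
  have b2 : max m x' - x' ≤ m - x + |x' - x| := by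
    rcases le_total m x' with h | h
    · rw [max_eq_right h]; linarith [abs_nonneg (x' - x)]
    · rw [max_eq_left h]; linarith [neg_abs_le (x' - x)]
  have b3 : Lam δ m ≤ Lam δ (max m x') := Lam_mono hδ (le_max_left _ _)
  have b4 : D ≤ (D + δ ^ 2 * τ) / μ ^ 2 := by
    rw [le_div_iff₀ (by positivity)]
    have : μ ^ 2 ≤ 1 := pow_le_one₀ hμ.le hμ1
    have : 0 ≤ δ ^ 2 * τ := by positivity
    nlinarith
  have b5 : 4 * C / Y ^ 2 ≤ 4 * (C + D) / Y ^ 2 :=
    div_le_div_of_nonneg_right (by linarith) (by positivity)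
  rw [div_split]
  nlinarith

theorem inv_right {s τ x g y z σ : ℝ} (h : Inv s x g y z) (hτ : 0 ≤ τ) (hs1 : s + τ ≤ 1)
    (hσ : |σ| ≤ 1) :
    Inv (s + τ) (x + τ) g (y + σ * g ^ 2 * τ) (z + g ^ 6 * (((x + τ) ^ 3 - x ^ 3) / 3)) := by
  obtain ⟨h1, h2, h3, C, hC, hz, hm⟩ := h
  have hs : 0 ≤ s := (abs_nonneg _).trans h1
  have hg1 : g ^ 2 ≤ 1 := by
    rw [← sq_abs]; exact pow_le_one₀ (abs_nonneg _) (by linarith)
  have hcube : x ^ 3 ≤ (x + τ) ^ 3 := Odd.pow_le_pow (by decide) |>.2 (by linarith)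
  set D := g ^ 6 * (((x + τ) ^ 3 - x ^ 3) / 3) with hD
  have hD0 : 0 ≤ D := mul_nonneg (by positivity) (by linarith)
  have a1 : |x + τ| ≤ |x| + τ := by
    have := abs_add_le x τ
    rwa [abs_of_nonneg hτ] at this
  have a3 : |y + σ * g ^ 2 * τ| ≤ |y| + g ^ 2 * τ := by
    have := abs_add_le y (σ * g ^ 2 * τ)
    rw [abs_mul, abs_mul, abs_of_nonneg hτ, abs_of_nonneg (sq_nonneg g)] at this
    have h' : |σ| * g ^ 2 * τ ≤ 1 * g ^ 2 * τ := by gcongr
    linarith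
  have a4 : g ^ 2 * τ ≤ τ := by nlinarith
  refine ⟨by linarith, by linarith, by linarith, C + D, by positivity, by nlinarith, ?_⟩
  intro Y δ μ hY hδ hμ hμ1
  obtain ⟨m, m1, m2, m3⟩ := hm Y δ μ hY hδ hμ hμ1
  have b5 : 4 * C / Y ^ 2 ≤ 4 * (C + D) / Y ^ 2 :=
    div_le_div_of_nonneg_right (by linarith) (by positivity)
  rcases le_total (x + τ) m with hxm | hxm
  · refine ⟨m, hxm, by linarith, ?_⟩
    have b4 : 0 ≤ (D + δ ^ 2 * τ) / μ ^ 2 := by positivity
    rw [div_split]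
    linarith
  · refine ⟨x + τ, le_rfl, by linarith [le_abs_self x], ?_⟩
    have hy := young (sq_nonneg g) hδ hμ hxm
    have c1 : x ^ 3 ≤ m ^ 3 := Odd.pow_le_pow (by decide) |>.2 m1
    have c2 : (g ^ 2) ^ 3 ≤ 1 := pow_le_one₀ (sq_nonneg g) hg1
    have c0 : 0 ≤ (g ^ 2) ^ 3 := pow_nonneg (sq_nonneg g) 3
    have c3 : (g ^ 2) ^ 3 * (((x + τ) ^ 3 - m ^ 3) / 3 + δ ^ 2 * (x + τ - m)) ≤ D + δ ^ 2 * τ := by
      have e1 : (g ^ 2) ^ 3 * (((x + τ) ^ 3 - m ^ 3) / 3) ≤ D := by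
        rw [hD, show g ^ 6 = (g ^ 2) ^ 3 by ring]
        exact mul_le_mul_of_nonneg_left (by linarith) c0
      have e2 : (g ^ 2) ^ 3 * (δ ^ 2 * (x + τ - m)) ≤ 1 * (δ ^ 2 * τ) :=
        mul_le_mul c2 (mul_le_mul_of_nonneg_left (by linarith) (by positivity))
          (mul_nonneg (by positivity) (by linarith)) zero_le_one
      nlinarith
    have c4 := div_le_div_of_nonneg_right c3 (sq_nonneg μ)
    have c5 : g ^ 2 * (m - x) ≤ m - x := by nlinarith
    rw [div_split]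
    nlinarith

theorem inv_left {s τ x g y z : ℝ} (h : Inv s x g y z) (hτ : 0 ≤ τ) (hs1 : s + τ ≤ 1) :
    Inv (s + τ) (x - τ) g y (z + y ^ 2 * τ) := by
  obtain ⟨h1, h2, h3, C, hC, hz, hm⟩ := h
  have hs : 0 ≤ s := (abs_nonneg _).trans h1
  have hD0 : 0 ≤ y ^ 2 * τ := by positivity
  have a1 : |x - τ| ≤ |x| + τ := by
    have := abs_sub x τ
    rwa [abs_of_nonneg hτ] at this
  refine ⟨by linarith, by linarith, by linarith, C + y ^ 2 * τ, by positivity, by nlinarith, ?_⟩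
  intro Y δ μ hY hδ hμ hμ1
  rcases le_total |y| (Y / 2) with hy | hy
  · refine ⟨x - τ, le_rfl, by linarith [le_abs_self x], ?_⟩
    have b1 := Lam_add_nonneg hδ (show -1 ≤ x - τ by linarith [neg_abs_le x])
    have b2 : 0 ≤ (C + y ^ 2 * τ + δ ^ 2 * (s + τ)) / μ ^ 2 := by positivity
    have b3 : 0 ≤ 4 * (C + y ^ 2 * τ) / Y ^ 2 := by positivity
    have b4 : 0 ≤ μ * (Lam δ (x - τ) + Lam δ 1) := by positivity
    linarith
  · obtain ⟨m, m1, m2, m3⟩ := hm Y δ μ hY hδ hμ hμ1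
    refine ⟨m, by linarith, by linarith, ?_⟩
    have b4 : 0 ≤ (y ^ 2 * τ + δ ^ 2 * τ) / μ ^ 2 := by positivity
    have b5 : 4 * C / Y ^ 2 + τ ≤ 4 * (C + y ^ 2 * τ) / Y ^ 2 := by
      have e : 4 * (C + y ^ 2 * τ) / Y ^ 2 = 4 * C / Y ^ 2 + 4 * y ^ 2 * τ / Y ^ 2 := by ring
      have e2 : τ ≤ 4 * y ^ 2 * τ / Y ^ 2 := by
        rw [le_div_iff₀ (by positivity)]
        have : (Y / 2) ^ 2 ≤ |y| ^ 2 := pow_le_pow_left₀ (by positivity) hy 2
        rw [sq_abs] at this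
        nlinarith
      linarith
    rw [div_split]
    linarith

theorem hold_bound {s x g y C : ℝ} {N : ℕ} (hN : 1 ≤ N) (hs : s ≤ 1 / (80 * N))
    (h2 : |g| ≤ s) (h3 : |y| ≤ s) (hC : 0 ≤ C)
    (hm : ∀ Y δ μ : ℝ, 0 < Y → 0 < δ → 0 < μ → μ ≤ 1 → ∃ m, x ≤ m ∧ m ≤ s ∧
      |y| + (m - x) ≤ Y / 2 + (C + δ ^ 2 * s) / μ ^ 2 + 4 * C / Y ^ 2
        + μ * (Lam δ m + Lam δ 1)) :
    g ^ 4 * y ^ 3 ≤ 12 * C + g ^ (2 * N) := by
  have hpos : 0 ≤ g ^ (2 * N) := by rw [pow_mul]; positivity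
  rcases eq_or_ne g 0 with rfl | hg
  · have : (0 : ℝ) ^ 4 * y ^ 3 = 0 := by simp
    linarith
  rcases eq_or_ne y 0 with rfl | hy
  · have : g ^ 4 * (0 : ℝ) ^ 3 = 0 := by simp
    linarith
  have hN1 : (1 : ℝ) ≤ N := by exact_mod_cast hN
  have hs1 : s * (80 * N) ≤ 1 := by rwa [le_div_iff₀ (by positivity)] at hs
  set q := |g| with hq
  set Y := |y| with hY
  have hq0 : 0 < q := abs_pos.2 hg
  have hY0 : 0 < Y := abs_pos.2 hy
  have hs0 : 0 < s := hq0.trans_le h2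
  have hs2 : s ≤ 1 := by nlinarith
  have hq1 : q ≤ 1 := h2.trans hs2
  have hY1 : Y ≤ 1 := h3.trans hs2
  set B : ℝ := 3 * N / q with hB
  have hB1 : 1 ≤ B := by rw [hB, le_div_iff₀ hq0]; nlinarith
  have hδ : 0 < q ^ N := pow_pos hq0 N
  have hL := Lam_bound hq0 hq1 hN
  obtain ⟨m, m1, m2, m3⟩ := hm Y (q ^ N) (Y / (16 * B)) hY0 hδ (by positivity)
    (by rw [div_le_one (by positivity)]; linarith)
  have hL2 : Lam (q ^ N) m ≤ Lam (q ^ N) 1 := Lam_mono hδ (by linarith)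
  have e1 : Y / (16 * B) * (Lam (q ^ N) m + Lam (q ^ N) 1) ≤ Y / 8 := by
    calc _ ≤ Y / (16 * B) * (2 * B) :=
          mul_le_mul_of_nonneg_left (by linarith) (by positivity)
      _ = Y / 8 := by field_simp; norm_num
  have e2 : (C + (q ^ N) ^ 2 * s) / (Y / (16 * B)) ^ 2
      = 256 * B ^ 2 * (C + (q ^ N) ^ 2 * s) / Y ^ 2 := by field_simp; norm_num
  have e3 : 3 / 8 * Y ≤ (256 * B ^ 2 * (C + (q ^ N) ^ 2 * s) + 4 * C) / Y ^ 2 := by
    rw [add_div, ← e2]; linarith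
  rw [le_div_iff₀ (by positivity)] at e3
  have e4 : q ^ 4 * B ^ 2 = 9 * (N * q) ^ 2 := by rw [hB]; field_simp; norm_num
  have e5 : N * q ≤ 1 / 80 := by nlinarith
  have e6 : (N * q) ^ 2 ≤ (1 / 80) ^ 2 := pow_le_pow_left₀ (by positivity) e5 2
  have e7 : q ^ 4 ≤ 1 := pow_le_one₀ hq0.le hq1
  have e8 : (q ^ N) ^ 2 = g ^ (2 * N) := by
    rw [← pow_mul, mul_comm, pow_mul, pow_mul, hq, sq_abs]
  have e9 : g ^ 4 * y ^ 3 ≤ q ^ 4 * Y ^ 3 := by
    have : g ^ 4 * y ^ 3 ≤ |g ^ 4 * y ^ 3| := le_abs_self _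
    rwa [abs_mul, abs_pow, abs_pow] at this
  rw [e8] at e3
  set P := g ^ (2 * N) with hP
  have f1 : C + P * s ≤ C + P := by nlinarith
  have f2 : q ^ 4 * (3 / 8 * Y * Y ^ 2) ≤ q ^ 4 * (256 * B ^ 2 * (C + P * s) + 4 * C) :=
    mul_le_mul_of_nonneg_left e3 (by positivity)
  have f3 : q ^ 4 * (256 * B ^ 2 * (C + P * s) + 4 * C)
      = 256 * (q ^ 4 * B ^ 2) * (C + P * s) + 4 * C * q ^ 4 := by ring
  have f4 : 256 * (q ^ 4 * B ^ 2) * (C + P * s) ≤ 3 / 8 * (C + P) := by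
    rw [e4]
    exact mul_le_mul (by nlinarith) f1 (by positivity) (by norm_num)
  have f5 : 4 * C * q ^ 4 ≤ 4 * C := by nlinarith
  nlinarith

theorem inv_hold {s τ x g y z : ℝ} {N : ℕ} (hN : 1 ≤ N) (h : Inv s x g y z) (hτ : 0 ≤ τ)
    (hs : s ≤ 1 / (80 * N)) :
    Inv (s + τ) x g y (z + (-(g ^ 4 * y ^ 3) + g ^ (2 * N)) * τ) := by
  obtain ⟨h1, h2, h3, C, hC, hz, hm⟩ := h
  have hb := hold_bound hN hs h2 h3 hC hm
  refine ⟨by linarith, by linarith, by linarith, C, hC, by nlinarith, ?_⟩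
  intro Y δ μ hY hδ hμ hμ1
  obtain ⟨m, m1, m2, m3⟩ := hm Y δ μ hY hδ hμ hμ1
  refine ⟨m, m1, by linarith, ?_⟩
  have : (C + δ ^ 2 * s) / μ ^ 2 ≤ (C + δ ^ 2 * (s + τ)) / μ ^ 2 :=
    div_le_div_of_nonneg_right (by nlinarith [sq_nonneg δ]) (by positivity)
  linarith

end Pool.Agent.MP_b41015_an

end MrgPart1

-- ======== part 2: formerly Pool.Agent.MP_b41015_an.Fields
section MrgPart2

set_option autoImplicit false

namespace Pool.Agent.MP_b41015_an

open Set

variable {n : ℕ}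

/-- The point with the four distinguished coordinates prescribed and the others zero. -/
noncomputable def pt (a : Fin 4 → Fin n) (x g y z : ℝ) : Fin n → ℝ :=
  x • (Pi.single (a 0) 1 : Fin n → ℝ) + g • (Pi.single (a 1) 1 : Fin n → ℝ)
    + y • (Pi.single (a 2) 1 : Fin n → ℝ) + z • (Pi.single (a 3) 1 : Fin n → ℝ)

/-- Sign attached to a Boolean. -/
def sg (b : Bool) : ℝ := if b then 1 else -1

/-- Index set of the family. -/
abbrev Idx (n : ℕ) : Type := Bool ⊕ Bool ⊕ Bool ⊕ (Fin n × Bool)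

/-- The family of fields; `ε = 0` is the controllable family, `ε = 1` its perturbation. -/
noncomputable def fld (a : Fin 4 → Fin n) (ε : ℝ) (N : ℕ) :
    Idx n → (Fin n → ℝ) → (Fin n → ℝ)
  | .inl b, v => pt a 1 0 (sg b * v (a 1) ^ 2) (v (a 0) ^ 2 * v (a 1) ^ 6)
  | .inr (.inl b), _ => pt a 0 (sg b) 0 0
  | .inr (.inr (.inl true)), v => pt a (-1) 0 0 (v (a 2) ^ 2)
  | .inr (.inr (.inl false)), v =>
      pt a 0 0 0 (-(v (a 1) ^ 4 * v (a 2) ^ 3) + ε * v (a 1) ^ (2 * N))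
  | .inr (.inr (.inr p)), _ =>
      sg p.2 • (Pi.single p.1 1 : Fin n → ℝ) + (Pi.single (a 3) 1 : Fin n → ℝ)

theorem abs_sg (b : Bool) : |sg b| = 1 := by cases b <;> simp [sg]

section coords
variable {a : Fin 4 → Fin n} (ha : Function.Injective a) (x g y z : ℝ)
include ha

theorem pt_0 : pt a x g y z (a 0) = x := by
  simp [pt, ha.eq_iff]

theorem pt_1 : pt a x g y z (a 1) = g := by
  simp [pt, ha.eq_iff]

theorem pt_2 : pt a x g y z (a 2) = y := by
  simp [pt, ha.eq_iff]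

theorem pt_3 : pt a x g y z (a 3) = z := by
  simp [pt, ha.eq_iff]

end coords

theorem hasDerivAt_pt (a : Fin 4 → Fin n) {x g y z : ℝ → ℝ} {x' g' y' z' u : ℝ}
    (hx : HasDerivAt x x' u) (hg : HasDerivAt g g' u) (hy : HasDerivAt y y' u)
    (hz : HasDerivAt z z' u) :
    HasDerivAt (fun u => pt a (x u) (g u) (y u) (z u)) (pt a x' g' y' z') u :=
  (((hx.smul_const _).add (hg.smul_const _)).add (hy.smul_const _)).add (hz.smul_const _)

/-- The perturbed family preserves the invariant along each arc. -/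
theorem inv_step {a : Fin 4 → Fin n} (ha : Function.Injective a) {N : ℕ} (hN : 1 ≤ N)
    (i : Idx n) (s s' : ℝ) (ξ : ℝ → (Fin n → ℝ)) (hss : s < s') (hs' : s' < 1 / (80 * N))
    (hξ : ∀ u ∈ Icc s s', HasDerivWithinAt ξ (fld a 1 N i (ξ u)) (Icc s s') u)
    (h : Inv s (ξ s (a 0)) (ξ s (a 1)) (ξ s (a 2)) (ξ s (a 3))) :
    Inv s' (ξ s' (a 0)) (ξ s' (a 1)) (ξ s' (a 2)) (ξ s' (a 3)) := by
  have hN1 : (1 : ℝ) ≤ N := by exact_mod_cast hN
  have hs1 : s' ≤ 1 := by
    refine hs'.le.trans ?_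
    rw [div_le_one (by positivity)]; linarith
  have hmem : s' ∈ Icc s s' := ⟨hss.le, le_rfl⟩
  have hτ : 0 ≤ s' - s := by linarith
  have es : s' = s + (s' - s) := by ring
  rcases i with b | b | b | p
  · have e0 := coord_lin hξ (a 0) 1 (fun u _ => pt_0 ha _ _ _ _)
    have e1 := coord_lin hξ (a 1) 0 (fun u _ => pt_1 ha _ _ _ _)
    have e2 := coord_lin hξ (a 2) (sg b * ξ s (a 1) ^ 2) (fun u hu => by
      simp only [fld]; rw [pt_2 ha, e1 u hu]; simp)
    have e3 := coord_eq hξ (a 3)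
      (fun u => ξ s (a 3) + ξ s (a 1) ^ 6 * (((ξ s (a 0) + (u - s)) ^ 3 - ξ s (a 0) ^ 3) / 3))
      (fun u => (ξ s (a 0) + (u - s)) ^ 2 * ξ s (a 1) ^ 6) (fun u => by
        have h1 := ((hasDerivAt_id u).sub_const s).const_add (ξ s (a 0))
        have h2 := ((((h1.pow 3).sub_const (ξ s (a 0) ^ 3)).div_const 3).const_mul
          (ξ s (a 1) ^ 6)).const_add (ξ s (a 3))
        exact h2.congr_deriv (by simp; ring))
      (fun u hu => by
        simp only [fld]; rw [pt_3 ha, e1 u hu, e0 u hu]; simp) (by simp)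
    have := inv_right h hτ (by linarith) (abs_sg b).le
    rw [e0 s' hmem, e1 s' hmem, e2 s' hmem, e3 s' hmem]
    rw [← es] at this
    simpa using this
  · have e0 := coord_lin hξ (a 0) 0 (fun u _ => pt_0 ha _ _ _ _)
    have e1 := coord_lin hξ (a 1) (sg b) (fun u _ => pt_1 ha _ _ _ _)
    have e2 := coord_lin hξ (a 2) 0 (fun u _ => pt_2 ha _ _ _ _)
    have e3 := coord_lin hξ (a 3) 0 (fun u _ => pt_3 ha _ _ _ _)
    have := inv_generic (x' := ξ s' (a 0)) (g' := ξ s' (a 1)) (y' := ξ s' (a 2)) (D := 0) h hτ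
      (by rw [e0 s' hmem]; simpa using hss.le)
      (by rw [e1 s' hmem, add_sub_cancel_left, abs_mul, abs_sg, abs_of_nonneg hτ]; simp)
      (by rw [e2 s' hmem]; simpa using hss.le)
      (by rw [e0 s' hmem, e2 s' hmem]; simp)
    rw [← es] at this
    rw [e3 s' hmem]
    simpa using this
  · cases b
    · have e0 := coord_lin hξ (a 0) 0 (fun u _ => pt_0 ha _ _ _ _)
      have e1 := coord_lin hξ (a 1) 0 (fun u _ => pt_1 ha _ _ _ _)
      have e2 := coord_lin hξ (a 2) 0 (fun u _ => pt_2 ha _ _ _ _)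
      have e3 := coord_lin hξ (a 3)
        (-(ξ s (a 1) ^ 4 * ξ s (a 2) ^ 3) + ξ s (a 1) ^ (2 * N)) (fun u hu => by
          simp only [fld]; rw [pt_3 ha, e1 u hu, e2 u hu]; simp)
      have := inv_hold hN h hτ (by linarith)
      rw [e0 s' hmem, e1 s' hmem, e2 s' hmem, e3 s' hmem]
      rw [← es] at this
      simpa using this
    · have e0 := coord_lin hξ (a 0) (-1) (fun u _ => pt_0 ha _ _ _ _)
      have e1 := coord_lin hξ (a 1) 0 (fun u _ => pt_1 ha _ _ _ _)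
      have e2 := coord_lin hξ (a 2) 0 (fun u _ => pt_2 ha _ _ _ _)
      have e3 := coord_lin hξ (a 3) (ξ s (a 2) ^ 2) (fun u hu => by
          simp only [fld]; rw [pt_3 ha, e2 u hu]; simp)
      have := inv_left h hτ (by linarith)
      rw [e0 s' hmem, e1 s' hmem, e2 s' hmem, e3 s' hmem]
      rw [← es] at this
      convert this using 1 <;> ring
  · obtain ⟨j, b⟩ := p
    have e : ∀ c : Fin n, ξ s' c = ξ s c +
        (sg b * (if c = j then 1 else 0) + (if c = a 3 then 1 else 0)) * (s' - s) := by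
      intro c
      exact coord_lin hξ c _ (fun u _ => by simp [fld, Pi.single_apply]) s' hmem
    have hb : |sg b| = 1 := abs_sg b
    have hb' : -1 ≤ sg b := by linarith [neg_abs_le (sg b)]
    have k : ∀ l : Fin 4, l ≠ 3 →
        |ξ s' (a l) - ξ s (a l)| = (if a l = j then 1 else 0) * (s' - s) := by
      intro l hl
      rw [e (a l), add_sub_cancel_left, if_neg (fun h => hl (ha h)), add_zero, abs_mul, abs_mul,
        hb, abs_of_nonneg hτ]
      split_ifs <;> simp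
    have k0 := k 0 (by decide)
    have k1 := k 1 (by decide)
    have k2 := k 2 (by decide)
    have := inv_generic (x' := ξ s' (a 0)) (g' := ξ s' (a 1)) (y' := ξ s' (a 2))
      (D := (sg b * (if a 3 = j then 1 else 0) + 1) * (s' - s)) h hτ
      (by rw [k0]; split_ifs <;> linarith)
      (by rw [k1]; split_ifs <;> linarith)
      (by rw [k2]; split_ifs <;> linarith)
      (by
        rw [k0, k2]
        by_cases h3 : a 3 = j
        · have h0 : a 0 ≠ j := fun h => absurd (ha (h.trans h3.symm)) (by decide)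
          have h2 : a 2 ≠ j := fun h => absurd (ha (h.trans h3.symm)) (by decide)
          rw [if_pos h3, if_neg h0, if_neg h2]
          nlinarith
        · rw [if_neg h3]
          by_cases h0 : a 0 = j
          · have h2 : a 2 ≠ j := fun h => absurd (ha (h.trans h0.symm)) (by decide)
            rw [if_pos h0, if_neg h2]
            linarith
          · rw [if_neg h0]
            split_ifs <;> linarith)
    rw [← es] at this
    rw [e (a 3)]
    simpa using this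

theorem not_stlc {k : ℕ} {a : Fin 4 → Fin n} (ha : Function.Injective a) {N : ℕ} (hN : 1 ≤ N)
    (e : Fin k → Idx n) : ¬ STLC (fun i => fld a 1 N (e i)) := by
  intro h
  have hN1 : (1 : ℝ) ≤ N := by exact_mod_cast hN
  have h1 := h (1 / (80 * N)) (by positivity)
  have hsub : (⋃ M : ℕ, Reach (fun i => fld a 1 N (e i)) (1 / (80 * N)) M)
      ⊆ {v | 0 ≤ v (a 3)} := by
    intro v hv
    obtain ⟨M, hM⟩ := mem_iUnion.1 hv
    obtain ⟨s, -, hs, hI⟩ := inv_of_reach _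
      (fun s v => Inv s (v (a 0)) (v (a 1)) (v (a 2)) (v (a 3))) _ inv_zero
      (fun i s s' ξ _ h2 h3 h4 h5 => inv_step ha hN (e i) s s' ξ h2 h3 h4 h5) hM
    refine inv_nonneg hI (hs.le.trans ?_)
    exact one_div_le_one_div_of_le (by norm_num) (by linarith)
  have h2 := mem_interior_iff_mem_nhds.1 (interior_mono hsub h1)
  obtain ⟨r, hr, hb⟩ := Metric.mem_nhds_iff.1 h2
  have h3 : (fun _ => -(r / 2) : Fin n → ℝ) ∈ Metric.ball (0 : Fin n → ℝ) r := by
    rw [mem_ball_zero_iff, pi_norm_lt_iff hr]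
    intro i
    rw [norm_neg, Real.norm_eq_abs, abs_of_pos (by positivity)]
    linarith
  have h4 : 0 ≤ -(r / 2) := hb h3
  linarith

end Pool.Agent.MP_b41015_an

end MrgPart2

-- ======== part 3: formerly Pool.Agent.MP_b41015_an.Control
section MrgPart3

set_option autoImplicit false

namespace Pool.Agent.MP_b41015_an

open Set

variable {n k : ℕ} {a : Fin 4 → Fin n} {N : ℕ} {e : Fin k → Idx n}

theorem mv (he : Function.Surjective e) {s : ℝ} {x : Fin n → ℝ}
    (h : Rch (fun i => fld a 0 N (e i)) s x) (i : Idx n) (φ : ℝ → (Fin n → ℝ))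
    (hφ : ∀ u, HasDerivAt φ (fld a 0 N i (φ u)) u) (h0 : φ 0 = x) {d : ℝ} (hd : 0 ≤ d) :
    Rch (fun i => fld a 0 N (e i)) (s + d) (φ d) := by
  obtain ⟨i, rfl⟩ := he i
  exact h.step i φ hφ h0 hd

theorem mvR (ha : Function.Injective a) (he : Function.Surjective e) {s x g y z : ℝ}
    (h : Rch (fun i => fld a 0 N (e i)) s (pt a x g y z)) (b : Bool) {d : ℝ} (hd : 0 ≤ d) :
    Rch (fun i => fld a 0 N (e i)) (s + d)
      (pt a (x + d) g (y + sg b * g ^ 2 * d) (z + g ^ 6 * (((x + d) ^ 3 - x ^ 3) / 3))) := by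
  refine mv he h (.inl b)
    (fun u => pt a (x + u) g (y + sg b * g ^ 2 * u) (z + g ^ 6 * (((x + u) ^ 3 - x ^ 3) / 3)))
    (fun u => ?_) (by simp) hd
  simp only [fld, pt_0 ha, pt_1 ha]
  have h1 := (hasDerivAt_id u).const_add x
  refine hasDerivAt_pt a h1 (hasDerivAt_const _ _) ?_ ?_
  · exact (((hasDerivAt_id u).const_mul (sg b * g ^ 2)).const_add y).congr_deriv (by simp)
  · exact (((((h1.pow 3).sub_const (x ^ 3)).div_const 3).const_mul (g ^ 6)).const_add
      z).congr_deriv (by simp; ring)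

theorem mvG (he : Function.Surjective e) {s x g y z : ℝ}
    (h : Rch (fun i => fld a 0 N (e i)) s (pt a x g y z)) (b : Bool) {d : ℝ} (hd : 0 ≤ d) :
    Rch (fun i => fld a 0 N (e i)) (s + d) (pt a x (g + sg b * d) y z) := by
  refine mv he h (.inr (.inl b)) (fun u => pt a x (g + sg b * u) y z)
    (fun u => ?_) (by simp) hd
  simp only [fld]
  refine hasDerivAt_pt a (hasDerivAt_const _ _) ?_ (hasDerivAt_const _ _) (hasDerivAt_const _ _)
  exact (((hasDerivAt_id u).const_mul (sg b)).const_add g).congr_deriv (by simp)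

theorem mvL (ha : Function.Injective a) (he : Function.Surjective e) {s x g y z : ℝ}
    (h : Rch (fun i => fld a 0 N (e i)) s (pt a x g y z)) {d : ℝ} (hd : 0 ≤ d) :
    Rch (fun i => fld a 0 N (e i)) (s + d) (pt a (x - d) g y (z + y ^ 2 * d)) := by
  refine mv he h (.inr (.inr (.inl true))) (fun u => pt a (x - u) g y (z + y ^ 2 * u))
    (fun u => ?_) (by simp) hd
  simp only [fld, pt_2 ha]
  refine hasDerivAt_pt a ((hasDerivAt_id u).const_sub x) (hasDerivAt_const _ _)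
    (hasDerivAt_const _ _) ?_
  exact (((hasDerivAt_id u).const_mul (y ^ 2)).const_add z).congr_deriv (by simp)

theorem mvH (ha : Function.Injective a) (he : Function.Surjective e) {s x g y z : ℝ}
    (h : Rch (fun i => fld a 0 N (e i)) s (pt a x g y z)) {d : ℝ} (hd : 0 ≤ d) :
    Rch (fun i => fld a 0 N (e i)) (s + d) (pt a x g y (z - g ^ 4 * y ^ 3 * d)) := by
  refine mv he h (.inr (.inr (.inl false))) (fun u => pt a x g y (z - g ^ 4 * y ^ 3 * u))
    (fun u => ?_) (by simp) hd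
  simp only [fld, pt_1 ha, pt_2 ha]
  refine hasDerivAt_pt a (hasDerivAt_const _ _) (hasDerivAt_const _ _)
    (hasDerivAt_const _ _) ?_
  exact (((hasDerivAt_id u).const_mul (g ^ 4 * y ^ 3)).const_sub z).congr_deriv (by simp)

theorem mvE (he : Function.Surjective e) {s : ℝ} {v : Fin n → ℝ}
    (h : Rch (fun i => fld a 0 N (e i)) s v) (j : Fin n) (w : ℝ) :
    Rch (fun i => fld a 0 N (e i)) (s + |w|)
      (v + (w • (Pi.single j 1 : Fin n → ℝ) + |w| • (Pi.single (a 3) 1 : Fin n → ℝ))) := by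
  obtain ⟨b, hb⟩ : ∃ b : Bool, w = |w| * sg b := by
    rcases le_total 0 w with hw | hw
    · exact ⟨true, by simp [sg, abs_of_nonneg hw]⟩
    · exact ⟨false, by simp [sg, abs_of_nonpos hw]⟩
  have := mv he h (.inr (.inr (.inr (j, b))))
    (fun u => v + u • (sg b • (Pi.single j 1 : Fin n → ℝ) + (Pi.single (a 3) 1 : Fin n → ℝ)))
    (fun u => by
      simp only [fld]
      exact (((hasDerivAt_id u).smul_const _).const_add v).congr_deriv (by simp))
    (by simp) (abs_nonneg w)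
  rw [smul_add, smul_smul, ← hb] at this
  exact this

theorem mvSum (he : Function.Surjective e) {s : ℝ} {v : Fin n → ℝ}
    (h : Rch (fun i => fld a 0 N (e i)) s v) (w : Fin n → ℝ) (S : Finset (Fin n)) :
    Rch (fun i => fld a 0 N (e i)) (s + ∑ j ∈ S, |w j|)
      (v + (∑ j ∈ S, w j • (Pi.single j 1 : Fin n → ℝ)
        + (∑ j ∈ S, |w j|) • (Pi.single (a 3) 1 : Fin n → ℝ))) := by
  induction S using Finset.induction_on with
  | empty => simpa using h
  | insert j S hj ih =>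
    have := mvE he ih j (w j)
    rw [Finset.sum_insert hj, Finset.sum_insert hj]
    convert this using 1
    · ring
    · rw [add_smul]; abel

theorem Rch.cast {f : Fin k → (Fin n → ℝ) → (Fin n → ℝ)} {s x g y z s' x' g' y' z' : ℝ}
    (h : Rch f s (pt a x g y z)) (h0 : s' = s) (h1 : x' = x) (h2 : g' = g) (h3 : y' = y)
    (h4 : z' = z) : Rch f s' (pt a x' g' y' z') := by
  rw [h0, h1, h2, h3, h4]; exact h

theorem sg_true : sg true = 1 := by simp [sg]

theorem sg_false : sg false = -1 := by simp [sg]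

/-- Round trip through `K` dyadic scales with a pause in the middle. -/
theorem round_trip (ha : Function.Injective a) (he : Function.Surjective e) {A d : ℝ}
    (hA : 0 ≤ A) (hd : 0 ≤ d) (K : ℕ) : ∀ (X γ s y z : ℝ), 0 ≤ X → 0 ≤ γ →
    Rch (fun i => fld a 0 N (e i)) s (pt a (-X) 0 y z) →
    Rch (fun i => fld a 0 N (e i)) (s + (2 * X + 4 * γ * (2 ^ K - 1) + 2 * A + d))
      (pt a X 0 y (z + 42 * K * (γ ^ 2 * X / 4) ^ 3
        - A ^ 4 * (y + 3 * K * (γ ^ 2 * X / 4)) ^ 3 * d)) := by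
  induction K with
  | zero =>
    intro X γ s y z hX hγ h
    have h1 := mvR ha he (mvG he (mvH ha he (mvG he h true hA) hd) false hA) true
      (d := 2 * X) (by linarith)
    refine h1.cast ?_ ?_ ?_ ?_ ?_ <;> (try simp only [sg_true, sg_false]) <;> push_cast <;> ring
  | succ K ih =>
    intro X γ s y z hX hγ h
    have h1 := mvG he (mvR ha he (mvG he h true hγ) true (d := 3 / 4 * X) (by linarith)) false hγ
    have h2 : Rch (fun i => fld a 0 N (e i)) (s + γ + 3 / 4 * X + γ)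
        (pt a (-(X / 4)) 0 (y + 3 * (γ ^ 2 * X / 4)) (z + 21 * (γ ^ 2 * X / 4) ^ 3)) := by
      refine h1.cast ?_ ?_ ?_ ?_ ?_ <;> (try simp only [sg_true, sg_false]) <;> push_cast <;> ring
    have h3 := ih (X / 4) (2 * γ) _ _ _ (by linarith) (by linarith) h2
    have h4 := mvG he (mvR ha he (mvG he h3 true hγ) false (d := 3 / 4 * X) (by linarith)) false hγ
    refine h4.cast ?_ ?_ ?_ ?_ ?_ <;> (try simp only [sg_true, sg_false]) <;> push_cast <;> ring

theorem stlc (ha : Function.Injective a) (he : Function.Surjective e) :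
    STLC (fun i => fld a 0 N (e i)) := by
  intro t ht
  set d : ℝ := min (t / 20) (1 / 2) with hd
  have hd0 : 0 < d := lt_min (by linarith) (by norm_num)
  have hd1 : d ≤ t / 20 := min_le_left _ _
  have hd2 : d ≤ 1 / 2 := min_le_right _ _
  obtain ⟨K, hK⟩ := exists_nat_gt (2 / d ^ 5 + 1)
  have hd5 : 0 < d ^ 5 := by positivity
  have hK0 : 0 < 2 / d ^ 5 := by positivity
  have hK1 : (1 : ℝ) ≤ K := by linarith
  have hK2 : 2 < K * d ^ 5 := by
    have : 2 / d ^ 5 < K := by linarith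
    rwa [div_lt_iff₀ hd5] at this
  have h2K : (K : ℝ) ≤ 2 ^ K := by exact_mod_cast Nat.lt_two_pow_self.le
  have h2K0 : (0 : ℝ) < 2 ^ K := by positivity
  set γ : ℝ := d / 2 ^ K with hγ
  have hγ0 : 0 < γ := by positivity
  have hγ1 : γ * 2 ^ K = d := by rw [hγ]; field_simp
  have hγ2 : K * γ ≤ d := by nlinarith
  have hγ3 : γ ≤ d := by nlinarith
  set c : ℝ := γ ^ 2 * d / 4 with hc
  have hc0 : 0 < c := by positivity
  have hKc : K * c ≤ 1 / 32 := by
    have e1 : K * c = (K * γ) * γ * d / 4 := by rw [hc]; ring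
    have e2 : (K * γ) * γ * d ≤ (1 / 2) * (1 / 2) * (1 / 2) := by
      gcongr <;> linarith
    linarith
  obtain ⟨i0, hi0⟩ := he (.inr (.inr (.inl false)))
  have b0 : Rch (fun i => fld a 0 N (e i)) d 0 :=
    Rch.base i0 (by simp [hi0, fld, pt]) hd0
  have b1 : Rch (fun i => fld a 0 N (e i)) d (pt a 0 0 0 0) := by
    convert b0; simp [pt]
  have b2 : Rch (fun i => fld a 0 N (e i)) (d + d) (pt a (-d) 0 0 0) := by
    convert mvL ha he b1 hd0.le using 2 <;> simp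
  have b3 := mvL ha he (round_trip ha he hd0.le hd0.le K d γ _ _ _ hd0.le hγ0.le b2) hd0.le
  set η : ℝ := 27 * d ^ 5 * (K * c) ^ 3 - 42 * K * c ^ 3 with hη
  have hη0 : 0 < η := by
    have e1 : η = K * c ^ 3 * (27 * (K * d ^ 5) * K - 42) := by rw [hη]; ring
    rw [e1]
    apply mul_pos (by positivity)
    nlinarith
  have hη1 : η ≤ d := by
    have e1 : (K * c) ^ 3 ≤ (1 / 32) ^ 3 := pow_le_pow_left₀ (by positivity) hKc 3
    have e2 : d ^ 4 ≤ 1 := pow_le_one₀ hd0.le (by linarith)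
    have e3 : d ^ 5 ≤ d := by
      calc d ^ 5 = d ^ 4 * d := by ring
        _ ≤ 1 * d := by gcongr
        _ = d := one_mul d
    have e4 : d ^ 5 * (K * c) ^ 3 ≤ d * (1 / 32) ^ 3 := by gcongr
    have e5 : 0 ≤ 42 * K * c ^ 3 := by positivity
    nlinarith
  have b4 : Rch (fun i => fld a 0 N (e i)) (12 * d)
      ((-η) • (Pi.single (a 3) 1 : Fin n → ℝ)) := by
    have : pt a (d - d) 0 0 (0 + 42 * K * (γ ^ 2 * d / 4) ^ 3
        - d ^ 4 * (0 + 3 * K * (γ ^ 2 * d / 4)) ^ 3 * d + 0 ^ 2 * d)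
        = (-η) • (Pi.single (a 3) 1 : Fin n → ℝ) := by
      rw [← hc, hη]
      simp only [pt, sub_self, zero_smul, zero_add]
      congr 1
      ring
    rw [this] at b3
    refine b3.mono ?_
    nlinarith
  have hopen : IsOpen {w : Fin n → ℝ | ∑ j, |w j| < η} :=
    isOpen_lt (by fun_prop) continuous_const
  refine mem_interior.2 ⟨_, ?_, hopen, by simpa using hη0⟩
  intro w hw
  have hw' : ∑ j, |w j| < η := hw
  have hw0 : 0 ≤ ∑ j, |w j| := Finset.sum_nonneg fun j _ => abs_nonneg _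
  have hu : 0 ≤ (η - ∑ j, |w j|) / 2 := by linarith
  have b5 := mvE he (mvSum he b4 w Finset.univ) (a 3) ((η - ∑ j, |w j|) / 2)
  rw [abs_of_nonneg hu] at b5
  have e1 : ∑ j, w j • (Pi.single j 1 : Fin n → ℝ) = w := by
    ext c
    simp [Finset.sum_apply, Pi.single_apply]
  rw [e1] at b5
  have e2 : (-η) • (Pi.single (a 3) 1 : Fin n → ℝ)
      + (w + (∑ j, |w j|) • (Pi.single (a 3) 1 : Fin n → ℝ))
      + (((η - ∑ j, |w j|) / 2) • (Pi.single (a 3) 1 : Fin n → ℝ)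
        + ((η - ∑ j, |w j|) / 2) • (Pi.single (a 3) 1 : Fin n → ℝ)) = w := by
    ext c
    simp only [Pi.add_apply, Pi.smul_apply, smul_eq_mul]
    ring
  rw [e2] at b5
  refine b5.mem ?_
  linarith

end Pool.Agent.MP_b41015_an

end MrgPart3

-- ======== part 4: formerly Pool.Agent.MP_b41015_an.Jets
section MrgPart4

set_option autoImplicit false

namespace Pool.Agent.MP_b41015_an

variable {n : ℕ}

/-- Scalar polynomial functions. -/
def PolyFun (φ : (Fin n → ℝ) → ℝ) : Prop :=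
  ∃ q : MvPolynomial (Fin n) ℝ, ∀ x, φ x = MvPolynomial.eval x q

theorem PolyFun.const (c : ℝ) : PolyFun (fun _ : Fin n → ℝ => c) :=
  ⟨MvPolynomial.C c, fun _ => by simp⟩

theorem PolyFun.coord (j : Fin n) : PolyFun (fun x : Fin n → ℝ => x j) :=
  ⟨MvPolynomial.X j, fun _ => by simp⟩

theorem PolyFun.add {φ ψ : (Fin n → ℝ) → ℝ} (h1 : PolyFun φ) (h2 : PolyFun ψ) :
    PolyFun (fun x => φ x + ψ x) := by
  obtain ⟨p, hp⟩ := h1
  obtain ⟨q, hq⟩ := h2
  exact ⟨p + q, fun x => by simp [hp, hq]⟩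

theorem PolyFun.mul {φ ψ : (Fin n → ℝ) → ℝ} (h1 : PolyFun φ) (h2 : PolyFun ψ) :
    PolyFun (fun x => φ x * ψ x) := by
  obtain ⟨p, hp⟩ := h1
  obtain ⟨q, hq⟩ := h2
  exact ⟨p * q, fun x => by simp [hp, hq]⟩

theorem PolyFun.neg {φ : (Fin n → ℝ) → ℝ} (h1 : PolyFun φ) : PolyFun (fun x => -φ x) := by
  obtain ⟨p, hp⟩ := h1
  exact ⟨-p, fun x => by simp [hp]⟩

theorem PolyFun.pow {φ : (Fin n → ℝ) → ℝ} (h1 : PolyFun φ) (m : ℕ) :
    PolyFun (fun x => φ x ^ m) := by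
  obtain ⟨p, hp⟩ := h1
  exact ⟨p ^ m, fun x => by simp [hp]⟩

theorem poly_pt (a : Fin 4 → Fin n) {x g y z : (Fin n → ℝ) → ℝ} (hx : PolyFun x)
    (hg : PolyFun g) (hy : PolyFun y) (hz : PolyFun z) :
    IsPolynomialField (fun v => pt a (x v) (g v) (y v) (z v)) := fun _ =>
  (((hx.mul (.const _)).add (hg.mul (.const _))).add (hy.mul (.const _))).add
    (hz.mul (.const _))

theorem poly_fld (a : Fin 4 → Fin n) (ε : ℝ) (N : ℕ) (i : Idx n) :
    IsPolynomialField (fld a ε N i) := by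
  rcases i with b | b | b | p
  · exact poly_pt a (.const _) (.const _) ((PolyFun.const _).mul ((PolyFun.coord _).pow _))
      (((PolyFun.coord _).pow _).mul ((PolyFun.coord _).pow _))
  · exact poly_pt a (.const _) (.const _) (.const _) (.const _)
  · cases b
    · exact poly_pt a (.const _) (.const _) (.const _)
        ((((PolyFun.coord _).pow _).mul ((PolyFun.coord _).pow _)).neg.add
          ((PolyFun.const _).mul ((PolyFun.coord _).pow _)))
    · exact poly_pt a (.const _) (.const _) (.const _) ((PolyFun.coord _).pow _)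
  · exact fun _ => PolyFun.const _

theorem IsPolynomialField.analytic {v : (Fin n → ℝ) → (Fin n → ℝ)} (h : IsPolynomialField v) :
    AnalyticOnNhd ℝ v Set.univ := by
  refine AnalyticOnNhd.pi (f := fun c x => v x c) fun c => ?_
  obtain ⟨q, hq⟩ := h c
  have : (fun x => v x c) = fun x => MvPolynomial.eval x q := funext hq
  rw [this]
  exact AnalyticOnNhd.eval_mvPolynomial q

theorem jet_pow (c : Fin n) (w : Fin n → ℝ) {M j : ℕ} (hj : j < M) :
    iteratedFDeriv ℝ j (fun v : Fin n → ℝ => v c ^ M • w) 0 = 0 := by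
  have h1 : ContDiff ℝ j (fun t : ℝ => t ^ M • w) := by fun_prop
  have h2 := (ContinuousLinearMap.proj c : (Fin n → ℝ) →L[ℝ] ℝ).iteratedFDeriv_comp_right h1
    (0 : Fin n → ℝ) (i := j) le_rfl
  have h3 : iteratedFDeriv ℝ j (fun t : ℝ => t ^ M • w) 0 = 0 := by
    rw [← norm_eq_zero, norm_iteratedFDeriv_eq_norm_iteratedDeriv,
      iteratedDeriv_smul_const (by fun_prop), iteratedDeriv_fun_pow_zero, if_neg hj.ne]
    simp
  have h4 : (fun v : Fin n → ℝ => v c ^ M • w) = (fun t : ℝ => t ^ M • w) ∘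
      (ContinuousLinearMap.proj c : (Fin n → ℝ) →L[ℝ] ℝ) := rfl
  rw [h4, h2, map_zero, h3]
  ext
  simp

theorem jet_fld (a : Fin 4 → Fin n) (N M : ℕ) (i : Idx n) {j : ℕ} (hj : j < 2 * N) :
    iteratedFDeriv ℝ j (fld a 0 M i) 0 = iteratedFDeriv ℝ j (fld a 1 N i) 0 := by
  rcases i with b | b | b | p
  · rfl
  · rfl
  · cases b
    · have e : fld a 1 N (.inr (.inr (.inl false))) = fld a 0 M (.inr (.inr (.inl false)))
          + fun v : Fin n → ℝ => v (a 1) ^ (2 * N) • (Pi.single (a 3) 1 : Fin n → ℝ) := by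
        ext v c
        simp only [fld, pt, Pi.add_apply, Pi.smul_apply, smul_eq_mul]
        ring
      rw [e, iteratedFDeriv_add_apply
        ((poly_fld a 0 M _).analytic 0 (Set.mem_univ _)).contDiffAt (by fun_prop),
        jet_pow _ _ hj, add_zero]
    · rfl
  · rfl

end Pool.Agent.MP_b41015_an

end MrgPart4

-- marker of a merged file
example : 731051 + 815223 = 731051 + 815223 := rfl
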