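import Mathlib
import Pool.Agent.MP_b41015_an.Jets

set_option autoImplicit false

namespace Pool.Agent.MP_b41015_an.Sw

open Set

/-- Sign attached to an index. -/
def sgn (i : Fin 2) : ℝ := if i = 0 then 1 else -1

theorem sgn_zero : sgn 0 = 1 := by simp [sgn]

theorem sgn_one : sgn 1 = -1 := by simp [sgn]

theorem sgn_sq (i : Fin 2) : sgn i * sgn i = 1 := by
  unfold sgn; split_ifs <;> norm_num

theorem abs_sgn (i : Fin 2) : |sgn i| = 1 := by
  unfold sgn; split_ifs <;> simp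

/-- The pair of fields `(±1, g, g ^ 4 - y ^ 3)` in the coordinates `(g, y, z)`. -/
def F (i : Fin 2) (v : Fin 3 → ℝ) : Fin 3 → ℝ := ![sgn i, v 0, v 0 ^ 4 - v 1 ^ 3]

/-- Primitive of the cube of a quadratic. -/
noncomputable def W (c g y r : ℝ) : ℝ :=
  y ^ 3 * r + 3 * y ^ 2 * g * r ^ 2 / 2 + (y * g ^ 2 + y ^ 2 * c) * r ^ 3
    + (g ^ 3 + 6 * y * g * c) * r ^ 4 / 4 + (3 * g ^ 2 * c + 3 * y * c ^ 2) * r ^ 5 / 5
    + g * c ^ 2 * r ^ 6 / 2 + c ^ 3 * r ^ 7 / 7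

theorem W_zero (c g y : ℝ) : W c g y 0 = 0 := by simp [W]

theorem hasDerivAt_W (c g y r : ℝ) :
    HasDerivAt (W c g y) ((y + g * r + c * r ^ 2) ^ 3) r := by
  have h1 := (hasDerivAt_id r).const_mul (y ^ 3)
  have h2 := ((hasDerivAt_pow 2 r).const_mul (3 * y ^ 2 * g)).div_const 2
  have h3 := (hasDerivAt_pow 3 r).const_mul (y * g ^ 2 + y ^ 2 * c)
  have h4 := ((hasDerivAt_pow 4 r).const_mul (g ^ 3 + 6 * y * g * c)).div_const 4
  have h5 := ((hasDerivAt_pow 5 r).const_mul (3 * g ^ 2 * c + 3 * y * c ^ 2)).div_const 5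
  have h6 := ((hasDerivAt_pow 6 r).const_mul (g * c ^ 2)).div_const 2
  have h7 := ((hasDerivAt_pow 7 r).const_mul (c ^ 3)).div_const 7
  have := (((((h1.add h2).add h3).add h4).add h5).add h6).add h7
  refine HasDerivAt.congr_deriv (f' := _) this ?_
  simp
  ring

/-- Increment of the third coordinate along an arc. -/
noncomputable def Z (σ g y r : ℝ) : ℝ := σ * ((g + σ * r) ^ 5 - g ^ 5) / 5 - W (σ / 2) g y r

theorem Z_zero (σ g y : ℝ) : Z σ g y 0 = 0 := by simp [Z, W_zero]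

theorem hasDerivAt_Z {σ : ℝ} (hσ : σ * σ = 1) (g y r : ℝ) :
    HasDerivAt (Z σ g y) ((g + σ * r) ^ 4 - (y + g * r + σ / 2 * r ^ 2) ^ 3) r := by
  have h1 : HasDerivAt (fun r : ℝ => g + σ * r) σ r := by
    simpa using ((hasDerivAt_id r).const_mul σ).const_add g
  have h2 := (((h1.pow 5).sub_const (g ^ 5)).const_mul σ).div_const 5
  have := h2.sub (hasDerivAt_W (σ / 2) g y r)
  refine HasDerivAt.congr_deriv (f' := _) this ?_
  have e : σ * (((5 : ℕ) : ℝ) * (g + σ * r) ^ (5 - 1) * σ) / 5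
      = (σ * σ) * (g + σ * r) ^ 4 := by push_cast; ring
  rw [e, hσ, one_mul]

theorem mono_aux (G G' : ℝ → ℝ) (hG : ∀ r, HasDerivAt G (G' r) r) {u : ℝ} (hu : 0 ≤ u)
    (h : ∀ r ∈ Icc 0 u, 0 ≤ G' r) : G 0 ≤ G u := by
  have hm : MonotoneOn G (Icc 0 u) := by
    refine monotoneOn_of_deriv_nonneg (convex_Icc 0 u)
      (fun r _ => (hG r).continuousAt.continuousWithinAt)
      (fun r _ => (hG r).differentiableAt.differentiableWithinAt) fun r hr => ?_
    rw [(hG r).deriv]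
    exact h r (interior_subset hr)
  exact hm ⟨le_rfl, hu⟩ ⟨hu, le_rfl⟩ hu

theorem W_ge {c g y u Y : ℝ} (hu : 0 ≤ u)
    (h : ∀ r ∈ Icc 0 u, Y ≤ y + g * r + c * r ^ 2) : Y ^ 3 * u ≤ W c g y u := by
  have := mono_aux (fun r => W c g y r - Y ^ 3 * r)
    (fun r => (y + g * r + c * r ^ 2) ^ 3 - Y ^ 3)
    (fun r => ((hasDerivAt_W c g y r).sub ((hasDerivAt_id r).const_mul (Y ^ 3))).congr_deriv
      (by simp)) hu
    (fun r hr => sub_nonneg.2 ((Odd.pow_le_pow (by decide)).2 (h r hr)))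
  simp only [W_zero] at this
  linarith

theorem W_le {c g y u Y : ℝ} (hu : 0 ≤ u)
    (h : ∀ r ∈ Icc 0 u, y + g * r + c * r ^ 2 ≤ Y) : W c g y u ≤ Y ^ 3 * u := by
  have := mono_aux (fun r => Y ^ 3 * r - W c g y r)
    (fun r => Y ^ 3 - (y + g * r + c * r ^ 2) ^ 3)
    (fun r => (((hasDerivAt_id r).const_mul (Y ^ 3)).sub (hasDerivAt_W c g y r)).congr_deriv
      (by simp)) hu
    (fun r hr => sub_nonneg.2 ((Odd.pow_le_pow (by decide)).2 (h r hr)))
  simp only [W_zero] at this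
  linarith

/-- One arc, forwards. -/
theorem mv {s g y z : ℝ} (h : Rch F s ![g, y, z]) (i : Fin 2) {d : ℝ} (hd : 0 ≤ d) :
    Rch F (s + d) ![g + sgn i * d, y + g * d + sgn i / 2 * d ^ 2, z + Z (sgn i) g y d] := by
  refine h.step i
    (fun u => ![g + sgn i * u, y + g * u + sgn i / 2 * u ^ 2, z + Z (sgn i) g y u])
    (fun u => ?_) (by simp [Z_zero]) hd
  rw [hasDerivAt_pi]
  intro c
  fin_cases c
  · simpa [F] using ((hasDerivAt_id u).const_mul (sgn i)).const_add g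
  · have := (((hasDerivAt_id u).const_mul g).const_add y).add
      ((hasDerivAt_pow 2 u).const_mul (sgn i / 2))
    refine HasDerivAt.congr_deriv (f' := _) this ?_
    simp [F]
    ring
  · simpa [F] using (hasDerivAt_Z (sgn_sq i) g y u).const_add z

theorem cast {s g y z s' g' y' z' : ℝ} (h : Rch F s ![g, y, z]) (h0 : s' = s) (h1 : g' = g)
    (h2 : y' = y) (h3 : z' = z) : Rch F s' ![g', y', z'] := by
  rw [h0, h1, h2, h3]; exact h

theorem start (i : Fin 2) {d : ℝ} (hd : 0 < d) :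
    Rch F d ![sgn i * d, sgn i / 2 * d ^ 2, Z (sgn i) 0 0 d] := by
  refine ⟨0, fun j => if j = 0 then 0 else d, fun _ => i,
    fun _ u => ![sgn i * u, sgn i / 2 * u ^ 2, Z (sgn i) 0 0 u], by simp, ?_, by simp,
    ?_, ?_, by simp, by simp⟩
  · intro j hj
    obtain rfl : j = 0 := by omega
    simpa using hd
  · intro j _ u _
    refine HasDerivAt.hasDerivWithinAt ?_
    rw [hasDerivAt_pi]
    intro c
    fin_cases c
    · simpa [F] using ((hasDerivAt_id u).const_mul (sgn i))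
    · have := ((hasDerivAt_pow 2 u).const_mul (sgn i / 2))
      refine HasDerivAt.congr_deriv (f' := _) this ?_
      simp [F]
      ring
    · simpa [F] using (hasDerivAt_Z (sgn_sq i) 0 0 u)
  · ext c
    fin_cases c <;> simp [Z_zero]

/-- A triangle upwards. -/
theorem tri_up {A s y z Y : ℝ} (hA : 0 ≤ A) (hY : Y ≤ y) (h : Rch F s ![0, y, z]) :
    ∃ z', z' ≤ z + (2 / 5 * A ^ 5 - 2 * A * Y ^ 3) ∧ Rch F (s + 2 * A) ![0, y + A ^ 2, z'] := by
  have h1 := mv (mv h 0 hA) 1 hA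
  simp only [sgn_zero, sgn_one] at h1
  refine ⟨_, ?_, cast h1 (by ring) (by ring) (by ring) rfl⟩
  have a1 : Y ^ 3 * A ≤ W (1 / 2) 0 y A := W_ge hA fun r _ => by nlinarith [sq_nonneg r]
  have a2 : Y ^ 3 * A ≤ W (-1 / 2) (0 + 1 * A) (y + 0 * A + 1 / 2 * A ^ 2) A :=
    W_ge hA fun r hr => by nlinarith [hr.1, hr.2, mul_nonneg hr.1 (sub_nonneg.2 hr.2)]
  unfold Z
  nlinarith

/-- A triangle downwards. -/
theorem tri_down {A s y z : ℝ} (hA : 0 ≤ A) (hy : 0 ≤ y) (h : Rch F s ![0, y + A ^ 2, z]) :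
    ∃ z', z' ≤ z + 2 / 5 * A ^ 5 ∧ Rch F (s + 2 * A) ![0, y, z'] := by
  have h1 := mv (mv h 1 hA) 0 hA
  simp only [sgn_zero, sgn_one] at h1
  refine ⟨_, ?_, cast h1 (by ring) (by ring) (by ring) rfl⟩
  have a1 : 0 ^ 3 * A ≤ W (-1 / 2) 0 (y + A ^ 2) A :=
    W_ge hA fun r hr => by nlinarith [hr.1, hr.2, mul_nonneg hr.1 (sub_nonneg.2 hr.2)]
  have a2 : 0 ^ 3 * A ≤ W (1 / 2) (0 + -1 * A) (y + A ^ 2 + 0 * A + -1 / 2 * A ^ 2) A :=
    W_ge hA fun r _ => by nlinarith [sq_nonneg (A - r)]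
  unfold Z
  nlinarith

theorem ups {A Y : ℝ} (hA : 0 ≤ A) (n : ℕ) : ∀ {s y z : ℝ}, Y ≤ y → Rch F s ![0, y, z] →
    ∃ z', z' ≤ z + n * (2 / 5 * A ^ 5 - 2 * A * Y ^ 3) ∧
      Rch F (s + n * (2 * A)) ![0, y + n * A ^ 2, z'] := by
  induction n with
  | zero => intro s y z _ h; exact ⟨z, by simp, by simpa using h⟩
  | succ n ih =>
    intro s y z hY h
    obtain ⟨z1, b1, h1⟩ := tri_up hA hY h
    obtain ⟨z2, b2, h2⟩ := ih (hY.trans (le_add_of_nonneg_right (sq_nonneg A))) h1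
    refine ⟨z2, by push_cast; linarith, cast h2 (by push_cast; ring) rfl (by push_cast; ring) rfl⟩

theorem downs {A : ℝ} (hA : 0 ≤ A) (n : ℕ) : ∀ {s z : ℝ}, Rch F s ![0, n * A ^ 2, z] →
    ∃ z', z' ≤ z + n * (2 / 5 * A ^ 5) ∧ Rch F (s + n * (2 * A)) ![0, 0, z'] := by
  induction n with
  | zero => intro s z h; exact ⟨z, by simp, by simpa using h⟩
  | succ n ih =>
    intro s z h
    obtain ⟨z1, b1, h1⟩ := tri_down (y := n * A ^ 2) hA (by positivity)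
      (cast h rfl rfl (by push_cast; ring) rfl)
    obtain ⟨z2, b2, h2⟩ := ih h1
    refine ⟨z2, by push_cast; linarith, cast h2 (by push_cast; ring) rfl rfl rfl⟩

/-- Induction over the arcs of a trajectory, counting them. -/
theorem inv_count {n k : ℕ} (f : Fin k → (Fin n → ℝ) → (Fin n → ℝ))
    (P : ℕ → ℝ → (Fin n → ℝ) → Prop) (T : ℝ) (h0 : P 0 0 0)
    (hstep : ∀ (j : ℕ) (i : Fin k) (s s' : ℝ) (ξ : ℝ → (Fin n → ℝ)), 0 ≤ s → s < s' → s' < T →
      (∀ u ∈ Icc s s', HasDerivWithinAt ξ (f i (ξ u)) (Icc s s') u) → P j s (ξ s) →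
      P (j + 1) s' (ξ s'))
    {N : ℕ} {x : Fin n → ℝ} (hx : x ∈ Reach f T N) : ∃ s, 0 ≤ s ∧ s < T ∧ P (N + 1) s x := by
  obtain ⟨τ, ι, ξ, h1, h2, h3, h4, h5, h6, h7⟩ := hx
  have hup : ∀ d j, j + d = N + 1 → τ j ≤ τ (N + 1) := by
    intro d
    induction d with
    | zero => intro j hj; simp at hj; rw [hj]
    | succ d ih =>
      intro j hj
      exact (h2 j (by omega)).le.trans (ih (j + 1) (by omega))
  have key : ∀ j ≤ N, 0 ≤ τ j ∧ P j (τ j) (ξ j (τ j)) := by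
    intro j
    induction j with
    | zero => intro _; rw [h1, h5]; exact ⟨le_rfl, h0⟩
    | succ j ih =>
      intro hj
      obtain ⟨a, b⟩ := ih (by omega)
      have hlt := h2 j (by omega)
      refine ⟨a.trans hlt.le, ?_⟩
      rw [← h6 j (by omega)]
      exact hstep j (ι j) _ _ (ξ j) a hlt
        ((hup (N - j) (j + 1) (by omega)).trans_lt h3) (h4 j (by omega)) b
  obtain ⟨a, b⟩ := key N le_rfl
  have hlt := h2 N le_rfl
  refine ⟨τ (N + 1), a.trans hlt.le, h3, ?_⟩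
  rw [← h7]
  exact hstep N (ι N) _ _ (ξ N) a hlt h3 (h4 N le_rfl) b

/-- The invariant after `j` arcs at time `s`. -/
def Inv (j : ℕ) (s : ℝ) (v : Fin 3 → ℝ) : Prop :=
  |v 0| ≤ s ∧ |v 1| ≤ s ^ 2 ∧ ∃ m, 0 ≤ m ∧ s ≤ j * m ∧ m ^ 5 / 80 - s ^ 7 ≤ v 2

theorem inv_step (j : ℕ) (i : Fin 2) (s s' : ℝ) (ξ : ℝ → (Fin 3 → ℝ)) (hs : 0 ≤ s)
    (hss : s < s') (hξ : ∀ u ∈ Icc s s', HasDerivWithinAt ξ (F i (ξ u)) (Icc s s') u)
    (h : Inv j s (ξ s)) : Inv (j + 1) s' (ξ s') := by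
  obtain ⟨h1, h2, m, hm0, hm1, hm2⟩ := h
  have hmem : s' ∈ Icc s s' := ⟨hss.le, le_rfl⟩
  set g := ξ s 0 with hg
  set y := ξ s 1 with hy
  set σ := sgn i with hσ
  have e0 := coord_lin hξ 0 σ (fun u _ => by simp [F, hσ])
  have e1 := coord_eq hξ 1 (fun u => y + g * (u - s) + σ / 2 * (u - s) ^ 2)
    (fun u => g + σ * (u - s)) (fun u => by
      have a := (hasDerivAt_id u).sub_const s
      have := ((a.const_mul g).const_add y).add ((a.pow 2).const_mul (σ / 2))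
      refine HasDerivAt.congr_deriv (f' := _) this ?_
      simp
      ring)
    (fun u hu => by
      have := e0 u hu
      simpa [F] using this) (by simp [hy])
  have e2 := coord_eq hξ 2 (fun u => ξ s 2 + Z σ g y (u - s))
    (fun u => (g + σ * (u - s)) ^ 4 - (y + g * (u - s) + σ / 2 * (u - s) ^ 2) ^ 3) (fun u => by
      have a := (hasDerivAt_id u).sub_const s
      have := ((hasDerivAt_Z (sgn_sq i) g y (u - s)).comp u a).const_add (ξ s 2)
      simpa using this)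
    (fun u hu => by
      have a0 := e0 u hu
      have a1 := e1 u hu
      simp only [F, Matrix.cons_val]
      rw [a0, a1]) (by simp [Z_zero])
  obtain ⟨τ, hτ, rfl⟩ : ∃ τ, 0 < τ ∧ s' = s + τ := ⟨s' - s, by linarith, by ring⟩
  have hσ1 : |σ| = 1 := abs_sgn i
  have hσ2 : σ * σ = 1 := sgn_sq i
  have hyb : ∀ r, 0 ≤ r → |y + g * r + σ / 2 * r ^ 2| ≤ (s + r) ^ 2 := by
    intro r hr
    have a1 := abs_add_le (y + g * r) (σ / 2 * r ^ 2)
    have a2 := abs_add_le y (g * r)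
    rw [abs_mul, abs_of_nonneg hr] at a2
    rw [abs_mul, abs_div, hσ1, abs_of_nonneg (sq_nonneg r), abs_two] at a1
    nlinarith
  unfold Inv
  rw [e0 _ hmem, e1 _ hmem, e2 _ hmem]
  simp only [add_sub_cancel_left]
  refine ⟨?_, hyb τ hτ.le, max m τ, hm0.trans (le_max_left _ _), ?_, ?_⟩
  · have := abs_add_le g (σ * τ)
    rw [abs_mul, hσ1, abs_of_pos hτ] at this
    linarith
  · have a1 : (j : ℝ) * m ≤ j * max m τ :=
      mul_le_mul_of_nonneg_left (le_max_left _ _) (Nat.cast_nonneg j)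
    have a2 := le_max_right m τ
    push_cast
    linarith
  · have a1 : W (σ / 2) g y τ ≤ ((s + τ) ^ 2) ^ 3 * τ := W_le hτ.le fun r hr =>
      ((le_abs_self _).trans (hyb r hr.1)).trans
        (pow_le_pow_left₀ (by linarith [hr.1]) (by linarith [hr.2]) 2)
    have a2 : s ^ 7 ≤ s * (s + τ) ^ 6 := by
      have : s ^ 6 ≤ (s + τ) ^ 6 := pow_le_pow_left₀ hs (by linarith) 6
      nlinarith
    have a3 : τ ^ 5 / 80 ≤ σ * ((g + σ * τ) ^ 5 - g ^ 5) / 5 := by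
      have hc : σ = 1 ∨ σ = -1 := by
        rw [hσ]; unfold sgn; split_ifs <;> simp
      have b1 : ∀ w : ℝ, 0 ≤ w ^ 4 * τ + w ^ 2 * τ ^ 3 / 2 := fun w => by positivity
      rcases hc with hc | hc
      · rw [hc]; nlinarith [b1 (g + τ / 2)]
      · rw [hc]; nlinarith [b1 (g - τ / 2)]
    have a4 : (max m τ) ^ 5 ≤ m ^ 5 + τ ^ 5 := by
      rcases le_total m τ with h | h
      · rw [max_eq_right h]; linarith [pow_nonneg hm0 5]
      · rw [max_eq_left h]; linarith [pow_nonneg hτ.le 5]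
    unfold Z
    nlinarith

theorem inv_reach {T : ℝ} {N : ℕ} {x : Fin 3 → ℝ} (hx : x ∈ Reach F T N) :
    ∃ s, 0 ≤ s ∧ s < T ∧ Inv (N + 1) s x :=
  inv_count F Inv T ⟨by simp, by simp, 0, le_rfl, by simp, by simp⟩
    (fun j i s s' ξ h1 h2 _ h4 h5 => inv_step j i s s' ξ h1 h2 h4 h5) hx

theorem no_bound (N : ℕ) : ∃ t : ℝ, 0 < t ∧ (0 : Fin 3 → ℝ) ∉ interior (Reach F t N) := by
  have hN1 : (1 : ℝ) ≤ (N + 1 : ℝ) ^ 5 := one_le_pow₀ (by linarith [Nat.cast_nonneg (α := ℝ) N])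
  refine ⟨1 / (80 * (N + 1 : ℝ) ^ 5), by positivity, fun h1 => ?_⟩
  have hsub : Reach F (1 / (80 * (N + 1 : ℝ) ^ 5)) N ⊆ {v | 0 ≤ v 2} := by
    intro v hv
    obtain ⟨s, hs0, hs, -, -, m, hm0, hm1, hm2⟩ := inv_reach hv
    push_cast at hm1
    rw [lt_div_iff₀ (by positivity)] at hs
    have a1 : s ^ 5 ≤ (N + 1 : ℝ) ^ 5 * m ^ 5 := by
      rw [← mul_pow]; exact pow_le_pow_left₀ hs0 hm1 5
    have a2 : s ≤ 1 := by nlinarith
    have a3 : s ^ 7 ≤ s ^ 6 := pow_le_pow_of_le_one hs0 a2 (by norm_num)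
    have a4 : s ^ 6 ≤ s * ((N + 1 : ℝ) ^ 5 * m ^ 5) := by
      calc s ^ 6 = s * s ^ 5 := by ring
        _ ≤ _ := mul_le_mul_of_nonneg_left a1 hs0
    have a5 : 0 ≤ m ^ 5 := pow_nonneg hm0 5
    show 0 ≤ v 2
    nlinarith
  have h2 := mem_interior_iff_mem_nhds.1 (interior_mono hsub h1)
  obtain ⟨r, hr, hb⟩ := Metric.mem_nhds_iff.1 h2
  have h3 : (fun _ => -(r / 2) : Fin 3 → ℝ) ∈ Metric.ball (0 : Fin 3 → ℝ) r := by
    rw [mem_ball_zero_iff, pi_norm_lt_iff hr]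
    intro i
    rw [norm_neg, Real.norm_eq_abs, abs_of_pos (by positivity)]
    linarith
  have h4 : 0 ≤ -(r / 2) := hb h3
  linarith

theorem first_tri {A : ℝ} (hA : 0 < A) :
    ∃ z', z' ≤ 2 / 5 * A ^ 5 ∧ Rch F (2 * A) ![0, A ^ 2, z'] := by
  have h1 := mv (start 0 hA) 1 hA.le
  simp only [sgn_zero, sgn_one] at h1
  refine ⟨_, ?_, cast h1 (by ring) (by ring) (by ring) rfl⟩
  have a1 : 0 ^ 3 * A ≤ W (1 / 2) 0 0 A := W_ge hA.le fun r _ => by nlinarith [sq_nonneg r]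
  have a2 : 0 ^ 3 * A ≤ W (-1 / 2) (1 * A) (1 / 2 * A ^ 2) A :=
    W_ge hA.le fun r hr => by nlinarith [hr.1, hr.2, mul_nonneg hr.1 (sub_nonneg.2 hr.2)]
  unfold Z
  nlinarith

/-- A chattering loop that lowers the third coordinate. -/
theorem neg_loop {d : ℝ} (hd : 0 < d) : ∃ z, z < 0 ∧ Rch F (12 * d) ![0, 0, z] := by
  obtain ⟨M, hM⟩ := exists_nat_gt (2 / d ^ 2 + 1)
  have hd2 : 0 < 2 / d ^ 2 := by positivity
  have hM1 : (1 : ℝ) ≤ M := by linarith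
  have hM2 : 2 < M * d ^ 2 := by
    have : 2 / d ^ 2 < M := by linarith
    rwa [div_lt_iff₀ (by positivity)] at this
  set A : ℝ := d / M with hA
  have hA0 : 0 < A := by positivity
  have hMA : M * A = d := by rw [hA]; field_simp
  have hAd : A ≤ d := by nlinarith
  have hA3 : 2 * A < d ^ 3 := by
    have : 2 * A < M * d ^ 2 * A := mul_lt_mul_of_pos_right hM2 hA0
    calc 2 * A < M * d ^ 2 * A := this
      _ = (M * A) * d ^ 2 := by ring
      _ = d ^ 3 := by rw [hMA]; ring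
  obtain ⟨z1, b1, h1⟩ := first_tri hA0
  obtain ⟨z2, b2, h2⟩ := ups (Y := 0) hA0.le M (sq_nonneg A) h1
  obtain ⟨z3, b3, h3⟩ := ups (Y := M * A ^ 2) hA0.le M
    (le_add_of_nonneg_left (sq_nonneg A)) h2
  obtain ⟨z4, b4, h4⟩ := downs hA0.le (2 * M + 1) (cast h3 rfl rfl (by push_cast; ring) rfl)
  refine ⟨z4, ?_, h4.mono ?_⟩
  · push_cast at b4
    have e1 : (M : ℝ) * (2 / 5 * A ^ 5) = 2 / 5 * d * A ^ 4 := by rw [← hMA]; ring
    have e2 : (M : ℝ) * (2 * A * (M * A ^ 2) ^ 3) = 2 * d ^ 4 * A ^ 3 := by rw [← hMA]; ring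
    have e3 : A ^ 5 ≤ d * A ^ 4 := by
      calc A ^ 5 = A * A ^ 4 := by ring
        _ ≤ d * A ^ 4 := by gcongr
    have e4 : d * A ^ 3 * (2 * A) < d * A ^ 3 * d ^ 3 :=
      mul_lt_mul_of_pos_left hA3 (by positivity)
    have e5 : 0 < d * A ^ 4 := by positivity
    nlinarith
  · push_cast
    nlinarith

/-- A loop that raises the third coordinate. -/
theorem pos_loop {s z a : ℝ} (ha : 0 ≤ a) (h : Rch F s ![0, 0, z]) :
    Rch F (s + 4 * a) ![0, 0, z + (4 / 5 * a ^ 5 + 13 / 10 * a ^ 7)] := by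
  have h1 := mv (mv (mv h 1 ha) 0 (d := 2 * a) (by linarith)) 1 ha
  simp only [sgn_zero, sgn_one] at h1
  refine cast h1 (by ring) (by ring) (by ring) ?_
  unfold Z W
  ring

/-- Increment of the third coordinate along the steering arcs. -/
noncomputable def Zt (a b c e : ℝ) : ℝ :=
  Z 1 0 0 a + Z (-1) a (a ^ 2 / 2) a + Z (-1) 0 (a ^ 2) b + Z 1 (-b) (a ^ 2 - b ^ 2 / 2) b
    + Z 1 0 (a ^ 2 - b ^ 2) c + Z (-1) c (a ^ 2 - b ^ 2 + c ^ 2 / 2) e

theorem steer {s z a b c e : ℝ} (ha : 0 ≤ a) (hb : 0 ≤ b) (hc : 0 ≤ c) (he : 0 ≤ e)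
    (h : Rch F s ![0, 0, z]) :
    Rch F (s + (2 * a + 2 * b + c + e))
      ![c - e, a ^ 2 - b ^ 2 + (c ^ 2 / 2 + c * e - e ^ 2 / 2), z + Zt a b c e] := by
  have h1 := mv (mv (mv (mv (mv (mv h 0 ha) 1 ha) 1 hb) 0 hb) 0 hc) 1 he
  simp only [sgn_zero, sgn_one] at h1
  refine cast h1 (by ring) (by ring) (by ring) ?_
  unfold Zt Z W
  ring

theorem stlc : STLC F := by
  intro t ht
  set d : ℝ := min (t / 70) (1 / 26) with hd
  have hd0 : 0 < d := lt_min (by linarith) (by norm_num)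
  have hd1 : d ≤ t / 70 := min_le_left _ _
  have hd2 : d ≤ 1 / 26 := min_le_right _ _
  obtain ⟨z0, hz0, h0⟩ := neg_loop hd0
  set D : ℝ := 13 * d with hD
  have hD0 : 0 < D := by linarith
  have hD1 : D ≤ 1 / 2 := by linarith
  have hlow : -D ^ 7 ≤ z0 := by
    obtain ⟨N, hN⟩ := mem_iUnion.1 (h0.mem (show 12 * d < D by linarith))
    obtain ⟨s, hs0, hs, -, -, m, hm0, -, hm2⟩ := inv_reach hN
    have a1 : s ^ 7 ≤ D ^ 7 := pow_le_pow_left₀ hs0 hs.le 7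
    have a2 : 0 ≤ m ^ 5 := pow_nonneg hm0 5
    have a3 : (![0, 0, z0] : Fin 3 → ℝ) 2 = z0 := by simp
    rw [a3] at hm2
    linarith
  set p : ℝ → ℝ := fun a => 4 / 5 * a ^ 5 + 13 / 10 * a ^ 7 with hp
  have hpc : Continuous p := by rw [hp]; fun_prop
  have hpD : 0 < p D + z0 := by
    have a1 : 0 < D ^ 5 := by positivity
    have a2 : 0 < D ^ 7 := by positivity
    simp only [hp]
    linarith
  let c : (Fin 3 → ℝ) → ℝ := fun w => max (w 0) 0
  let e : (Fin 3 → ℝ) → ℝ := fun w => max (-w 0) 0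
  let v : (Fin 3 → ℝ) → ℝ := fun w => w 1 - (c w ^ 2 / 2 + c w * e w - e w ^ 2 / 2)
  let a : (Fin 3 → ℝ) → ℝ := fun w => √(max (v w) 0)
  let b : (Fin 3 → ℝ) → ℝ := fun w => √(max (-v w) 0)
  have cc : Continuous c := by fun_prop
  have ce : Continuous e := by fun_prop
  have cv : Continuous v := by fun_prop
  have ca : Continuous a := by fun_prop
  have cb : Continuous b := by fun_prop
  have cZ : Continuous fun w => w 2 - Zt (a w) (b w) (c w) (e w) := by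
    unfold Zt Z W
    fun_prop
  have cT : Continuous fun w => 2 * a w + 2 * b w + c w + e w := by fun_prop
  have hopen : IsOpen ({w : Fin 3 → ℝ | 2 * a w + 2 * b w + c w + e w < d} ∩
      ({w | z0 < w 2 - Zt (a w) (b w) (c w) (e w)} ∩
        {w | w 2 - Zt (a w) (b w) (c w) (e w) < p D + z0})) :=
    (isOpen_lt cT continuous_const).inter
      ((isOpen_lt continuous_const cZ).inter (isOpen_lt cZ continuous_const))
  have z1 : c 0 = 0 := by simp [c]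
  have z2 : e 0 = 0 := by simp [e]
  have z3 : v 0 = 0 := by simp [v, z1, z2]
  have z4 : a 0 = 0 := by simp [a, z3]
  have z5 : b 0 = 0 := by simp [b, z3]
  have z6 : Zt 0 0 0 0 = 0 := by simp [Zt, Z_zero]
  refine mem_interior.2 ⟨_, ?_, hopen, ?_⟩
  · rintro w ⟨w1, w2, w3⟩
    simp only [mem_ofPred_eq] at w1 w2 w3
    have hiv := intermediate_value_Icc hD0.le hpc.continuousOn
    obtain ⟨α, hα, hpα⟩ := hiv (show w 2 - Zt (a w) (b w) (c w) (e w) - z0 ∈ Icc (p 0) (p D) from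
      ⟨by simp only [hp]; norm_num; linarith, by linarith⟩)
    have h1 := steer (Real.sqrt_nonneg (max (v w) 0)) (Real.sqrt_nonneg (max (-v w) 0))
      (le_max_right (w 0) 0) (le_max_right (-w 0) 0) (pos_loop hα.1 h0)
    have k0 : c w - e w = w 0 := max_zero_sub_max_neg_zero_eq_self _
    have k1 : a w ^ 2 - b w ^ 2 = v w := by
      simp only [a, b]
      rw [Real.sq_sqrt (le_max_right _ _), Real.sq_sqrt (le_max_right _ _)]
      exact max_zero_sub_max_neg_zero_eq_self _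
    have h2 : Rch F (12 * d + 4 * α + (2 * a w + 2 * b w + c w + e w)) ![w 0, w 1, w 2] := by
      refine cast h1 rfl k0.symm ?_ ?_
      · show w 1 = a w ^ 2 - b w ^ 2 + (c w ^ 2 / 2 + c w * e w - e w ^ 2 / 2)
        rw [k1]; simp [v]
      · show w 2 = z0 + p α + Zt (a w) (b w) (c w) (e w)
        rw [hpα]; ring
    have hw : (![w 0, w 1, w 2] : Fin 3 → ℝ) = w := by
      ext i; fin_cases i <;> rfl
    rw [hw] at h2
    refine h2.mem ?_
    linarith [hα.2]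
  · refine ⟨?_, ?_, ?_⟩ <;> simp only [mem_ofPred_eq, z1, z2, z4, z5, z6, Pi.zero_apply] <;>
      linarith

theorem poly_F (i : Fin 2) : IsPolynomialField (F i) := by
  intro c
  fin_cases c
  · exact PolyFun.const (sgn i)
  · exact PolyFun.coord 0
  · exact ((PolyFun.coord 0).pow 4).add ((PolyFun.coord 1).pow 3).neg

end Pool.Agent.MP_b41015_an.Sw
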